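import Pool.Agent.LE.StmtsQH

/-!
# The self-energy: Banach's fixed point theorem
-/

set_option autoImplicit false

open MeasureTheory ProbabilityTheory Function Filter

open scoped ENNReal BigOperators Topology NNReal ComplexOrder Matrix

noncomputable section

namespace Pool.Agent.LE.QF.H68

open Pool.Agent.Anderson hiding box mem_box card_box
open Pool.Agent.Loc Pool.Agent.Mob Pool.Agent.Helper54.Bal
  Pool.Agent.Helper96.EXP Pool.Agent.BED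
open Pool.Agent.LE.MN Pool.Agent.LE.CL Pool.Agent.LE.IR Pool.Agent.LE.QD

theorem norm_sub_z (x : ℝ) (ζ : ℂ) : ‖(x : ℂ) - ζ‖ = Real.sqrt ((x - ζ.re) ^ 2 + ζ.im ^ 2) := by
  rw [← Complex.normSq_add_mul_I (x - ζ.re) (ζ.im), ← Complex.sq_norm,
    Real.sqrt_sq (norm_nonneg _)]
  have h : ((x - ζ.re : ℝ) : ℂ) + (ζ.im : ℂ) * Complex.I = (starRingEnd ℂ) ((x : ℂ) - ζ) := by
    apply Complex.ext <;> simp
  rw [h, RCLike.norm_conj]

theorem im_inv_sub (x : ℝ) (ζ : ℂ) :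
    (((x : ℂ) - ζ)⁻¹).im = ζ.im / ((x - ζ.re) ^ 2 + ζ.im ^ 2) := by
  rw [Complex.inv_im, Complex.normSq_apply]
  simp only [Complex.sub_im, Complex.ofReal_im, Complex.sub_re, Complex.ofReal_re]
  congr 1
  · ring
  · ring

variable {d M : ℕ} [NeZero M]

/-- `ds` is even -/
theorem ds_neg (p : Tor d M) : ds (-p) = ds p := by
  unfold ds
  refine Finset.sum_congr rfl fun i _ => ?_
  have h : Real.cos (2 * Real.pi * (((-p) i).valMinAbs : ℝ) / M) =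
      Real.cos (2 * Real.pi * ((p i).valMinAbs : ℝ) / M) := by
    by_cases h0 : 2 * (p i).val = M
    · have : (-p) i = p i := by
        have e : ((p i).val + (p i).val : ℕ) = M := by omega
        have e2 : p i + p i = 0 := by
          have := congrArg (fun n : ℕ => (n : ZMod M)) e
          simpa using this
        rw [Pi.neg_apply]
        exact neg_eq_of_add_eq_zero_left e2
      rw [this]
    · rw [Pi.neg_apply, ZMod.valMinAbs_neg_of_ne_half h0]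
      push_cast
      rw [mul_neg, neg_div, Real.cos_neg]
  rw [h]

theorem es_neg (p : Tor d M) : es (-p) = es p := by
  unfold es
  rw [ds_neg]

/-- the mean of `1 / (es - ζ)` -/
def Fz (d M : ℕ) [NeZero M] (ζ : ℂ) : ℂ := (∑ p : Tor d M, ((es p : ℂ) - ζ)⁻¹) / (M : ℂ) ^ d

theorem Md_pos : (0 : ℝ) < (M : ℝ) ^ d := by
  have : 0 < M := Nat.pos_of_ne_zero (NeZero.ne M)
  positivity

theorem rs_diag (ral : RalStmt) (ζ : ℂ) (hζ : 0 < ζ.im) (x : Tor d M) :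
    rs (0 : Tor d M → ℝ) ζ x x = Fz d M ζ := by
  obtain ⟨-, -, -, -, -, -, -, -, -, -, r11, -⟩ := ral d M (0 : Tor d M → ℝ) ζ hζ
  rw [r11 x x]
  unfold Fz
  congr 1
  refine Finset.sum_congr rfl fun p _ => ?_
  have : ec p (x - x : Tor d M) = 1 := by
    unfold ec
    simp
  rw [this, one_div]

omit [NeZero M] in
theorem es_sub_ne (p : Tor d M) {ζ : ℂ} (hζ : 0 < ζ.im) : (es p : ℂ) - ζ ≠ 0 := by
  intro h
  have := congrArg Complex.im h
  simp at this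
  exact hζ.ne' this

theorem Fz_deriv {ζ : ℂ} (hζ : 0 < ζ.im) : HasDerivAt (Fz d M) (bh ζ (0 : Tor d M)) ζ := by
  have h1 : ∀ p : Tor d M, HasDerivAt (fun z : ℂ => ((es p : ℂ) - z)⁻¹)
      (((es p : ℂ) - ζ)⁻¹ * ((es ((0 : Tor d M) - p) : ℂ) - ζ)⁻¹) ζ := by
    intro p
    have h2 : HasDerivAt (fun z : ℂ => (es p : ℂ) - z) (-1) ζ := by
      simpa using (hasDerivAt_id ζ).const_sub (es p : ℂ)
    have h3 := h2.inv (es_sub_ne p hζ)
    have h4 : ((es p : ℂ) - ζ)⁻¹ * ((es ((0 : Tor d M) - p) : ℂ) - ζ)⁻¹ =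
        -(-1) / ((es p : ℂ) - ζ) ^ 2 := by
      rw [zero_sub, es_neg]
      have := es_sub_ne p hζ
      field_simp
    rw [h4]
    exact h3
  unfold Fz bh
  exact (HasDerivAt.fun_sum fun p _ => h1 p).div_const _

theorem Fz_im (ζ : ℂ) : (Fz d M ζ).im =
    pm (fun p : Tor d M => ζ.im / ((es p - ζ.re) ^ 2 + ζ.im ^ 2)) := by
  have hcast : ((M : ℂ)) ^ d = (((M : ℝ) ^ d : ℝ) : ℂ) := by push_cast; rfl
  unfold Fz
  rw [hcast, Complex.div_ofReal_im, Complex.im_sum]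
  unfold pm
  congr 1
  exact Finset.sum_congr rfl fun p _ => im_inv_sub _ _

theorem Fz_norm (ζ : ℂ) : ‖Fz d M ζ‖ ≤
    pm (fun p : Tor d M => (Real.sqrt ((es p - ζ.re) ^ 2 + ζ.im ^ 2))⁻¹) := by
  have hcast : ((M : ℂ)) ^ d = (((M : ℝ) ^ d : ℝ) : ℂ) := by push_cast; rfl
  have hMd : (0 : ℝ) < (M : ℝ) ^ d := Md_pos
  unfold Fz pm
  rw [hcast, norm_div, Complex.norm_real, Real.norm_of_nonneg hMd.le]
  refine div_le_div_of_nonneg_right ((norm_sum_le _ _).trans (le_of_eq ?_)) hMd.le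
  exact Finset.sum_congr rfl fun p _ => by rw [norm_inv, norm_sub_z]

/-- the lower bound -/
theorem Fz_low {cL : ℝ} {ζ : ℂ} (hζ : 0 < ζ.im) (i : Fin d)
    (h : cL * ζ.im ≤ pm (fun p : Tor d M => if |es p - ζ.re| ≤ ζ.im then
      Real.sin (2 * Real.pi * ((p i).valMinAbs : ℝ) / M - 0) ^ 2 else 0)) :
    cL / 2 ≤ (Fz d M ζ).im := by
  have hMd : (0 : ℝ) < (M : ℝ) ^ d := Md_pos
  rw [Fz_im]
  have e1 : pm (fun p : Tor d M => if |es p - ζ.re| ≤ ζ.im then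
      Real.sin (2 * Real.pi * ((p i).valMinAbs : ℝ) / M - 0) ^ 2 else 0) ≤
      2 * ζ.im * pm (fun p : Tor d M => ζ.im / ((es p - ζ.re) ^ 2 + ζ.im ^ 2)) := by
    unfold pm
    rw [← mul_div_assoc, Finset.mul_sum]
    refine div_le_div_of_nonneg_right (Finset.sum_le_sum fun p _ => ?_) hMd.le
    have e2 : 0 < (es p - ζ.re) ^ 2 + ζ.im ^ 2 := by positivity
    split_ifs with h
    · have e3 : (es p - ζ.re) ^ 2 ≤ ζ.im ^ 2 := by
        rw [← sq_abs (es p - ζ.re)]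
        gcongr
      calc Real.sin (2 * Real.pi * ((p i).valMinAbs : ℝ) / M - 0) ^ 2 ≤ 1 :=
            Real.sin_sq_le_one _
        _ ≤ 2 * ζ.im * (ζ.im / ((es p - ζ.re) ^ 2 + ζ.im ^ 2)) := by
            rw [← mul_div_assoc, le_div_iff₀ e2]
            nlinarith
    · positivity
  have e2 := h.trans e1
  have e3 : cL * ζ.im = 2 * ζ.im * (cL / 2) := by ring
  rw [e3] at e2
  exact le_of_mul_le_mul_left e2 (by positivity)

/-- `1 + log (1 / u⁴) ≤ 4 / u` -/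
theorem log_le_u {u : ℝ} (hu : 0 < u) : 1 + Real.log (1 / u ^ 4) ≤ 4 / u := by
  have h1 : Real.log (1 / u ^ 4) = 4 * Real.log (1 / u) := by
    rw [one_div, one_div, Real.log_inv, Real.log_inv, Real.log_pow]
    push_cast
    ring
  have h2 : Real.log (1 / u) ≤ 1 / u - 1 := Real.log_le_sub_one_of_pos (by positivity)
  rw [h1]
  have h3 : 4 / u = 4 * (1 / u) := by ring
  rw [h3]
  linarith

/-- the set of the fixed point -/
def Ks (c₀ C₁ R : ℝ) : Set ℂ := {m | (c₀ ≤ m.im ∧ m.im ≤ C₁) ∧ ‖m‖ ≤ R}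

theorem Ks_convex (c₀ C₁ R : ℝ) : Convex ℝ (Ks c₀ C₁ R) := by
  have h1 : Convex ℝ {m : ℂ | c₀ ≤ m.im} := convex_halfSpace_im_ge c₀
  have h2 : Convex ℝ {m : ℂ | m.im ≤ C₁} := convex_halfSpace_im_le C₁
  have h3 : Convex ℝ {m : ℂ | ‖m‖ ≤ R} := by
    have := convex_closedBall (0 : ℂ) R
    have e : {m : ℂ | ‖m‖ ≤ R} = Metric.closedBall (0 : ℂ) R := by
      ext m
      simp
    rw [e]
    exact this
  have e : Ks c₀ C₁ R = ({m : ℂ | c₀ ≤ m.im} ∩ {m : ℂ | m.im ≤ C₁}) ∩ {m : ℂ | ‖m‖ ≤ R} := by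
    ext m
    simp [Ks]
  rw [e]
  exact (h1.inter h2).inter h3

theorem Ks_closed (c₀ C₁ R : ℝ) : IsClosed (Ks c₀ C₁ R) := by
  have h1 : IsClosed {m : ℂ | c₀ ≤ m.im} := isClosed_le continuous_const Complex.continuous_im
  have h2 : IsClosed {m : ℂ | m.im ≤ C₁} := isClosed_le Complex.continuous_im continuous_const
  have h3 : IsClosed {m : ℂ | ‖m‖ ≤ R} := isClosed_le continuous_norm continuous_const
  have e : Ks c₀ C₁ R = ({m : ℂ | c₀ ≤ m.im} ∩ {m : ℂ | m.im ≤ C₁}) ∩ {m : ℂ | ‖m‖ ≤ R} := by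
    ext m
    simp [Ks]
  rw [e]
  exact (h1.inter h2).inter h3

/-- Banach's fixed point theorem on a convex closed set of complex numbers -/
theorem fix_of_deriv {K : Set ℂ} (hK : IsClosed K) (hc : Convex ℝ K) (hn : K.Nonempty)
    (f f' : ℂ → ℂ) (hm : ∀ z ∈ K, f z ∈ K) (hd : ∀ z ∈ K, HasDerivAt f (f' z) z)
    (hb : ∀ z ∈ K, ‖f' z‖ ≤ 1 / 2) : ∃ m ∈ K, f m = m := by
  obtain ⟨x, hx⟩ := hn
  have hmt : Set.MapsTo f K K := hm
  have hcw : ContractingWith (1 / 2 : ℝ≥0) (hmt.restrict f K K) := by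
    refine ⟨?_, LipschitzWith.of_dist_le_mul fun a b => ?_⟩
    · rw [← NNReal.coe_lt_coe]
      norm_num
    · rw [Subtype.dist_eq, Subtype.dist_eq, Set.MapsTo.val_restrict_apply,
        Set.MapsTo.val_restrict_apply, dist_eq_norm, dist_eq_norm]
      have := hc.norm_image_sub_le_of_norm_hasDerivWithin_le (f := f) (f' := f')
        (fun z hz => (hd z hz).hasDerivWithinAt) hb b.2 a.2
      simpa using this
  obtain ⟨y, hy, hfy, -⟩ := ContractingWith.exists_fixedPoint' hK.isComplete hmt hcw hx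
    (edist_ne_top _ _)
  exact ⟨y, hy, hfy⟩

theorem Ks_ne {c₀ C₁ R : ℝ} (h : 0 ≤ c₀) (h1 : c₀ ≤ C₁) (h2 : c₀ ≤ R) :
    (Ks c₀ C₁ R).Nonempty := by
  refine ⟨⟨0, c₀⟩, ⟨le_refl _, h1⟩, ?_⟩
  have e1 : ‖(⟨0, c₀⟩ : ℂ)‖ = c₀ := by
    have : (⟨0, c₀⟩ : ℂ) = (c₀ : ℂ) * Complex.I := by
      apply Complex.ext <;> simp
    rw [this, norm_mul, Complex.norm_I, mul_one, Complex.norm_real,
      Real.norm_of_nonneg h]
  rw [e1]
  exact h2

theorem last_le {C x y : ℝ} (hC : 0 ≤ C) (hx : 0 ≤ x) (hy : 0 ≤ y) :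
    C * (1 + x + y) ≤ C * (1 + x) * (1 + y) := by
  have : 0 ≤ C * (x * y) := by positivity
  nlinarith

theorem TR_le {T c₀ C₁ l u a : ℝ} (hc₀0 : 0 < c₀) (hC₁0 : 0 < C₁) (hu0 : 0 < u) (hu1 : u ≤ 1)
    (hu4 : u ^ 4 = c₀ * T) (hlu : l ≤ 4 / u) (hu : u ≤ a * c₀ / (8 * C₁)) :
    T * (C₁ * l) ≤ a / 2 := by
  have e1 : T * (C₁ * l) = u ^ 4 / c₀ * (C₁ * l) := by
    rw [hu4]
    field_simp
  have e2 : u ^ 4 / c₀ * (C₁ * l) ≤ u ^ 4 / c₀ * (C₁ * (4 / u)) := by gcongr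
  have e3 : u ^ 4 / c₀ * (C₁ * (4 / u)) = 4 * C₁ / c₀ * u ^ 3 := by field_simp
  have e4 : u ^ 3 ≤ u := by
    calc u ^ 3 = u * (u * u) := by ring
      _ ≤ u * (1 * 1) := by gcongr
      _ = u := by ring
  have e5 : 4 * C₁ / c₀ * u ^ 3 ≤ 4 * C₁ / c₀ * (a * c₀ / (8 * C₁)) := by
    have : u ^ 3 ≤ a * c₀ / (8 * C₁) := e4.trans hu
    gcongr
  have e6 : 4 * C₁ / c₀ * (a * c₀ / (8 * C₁)) = a / 2 := by
    field_simp
    ring
  linarith

theorem bd_le {T CK c₀ l u w b : ℝ} (hc₀0 : 0 < c₀) (hCK0 : 0 < CK) (hT : 0 ≤ T) (hw : 0 < w)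
    (hl : 0 ≤ l) (hu0 : 0 < u) (hu4 : u ^ 4 = c₀ * T) (hlu : l ≤ 4 / u)
    (hu : u ≤ c₀ / (8 * CK)) (huw : c₀ * T ≤ w)
    (hb : b ≤ CK * l / w * Real.sqrt (w / (w + 1))) : b * T ≤ 1 / 2 := by
  have hw1 : u ^ 2 ≤ Real.sqrt w := by
    apply Real.le_sqrt_of_sq_le
    calc (u ^ 2) ^ 2 = u ^ 4 := by ring
      _ ≤ w := by rw [hu4]; exact huw
  have e1 : Real.sqrt (w / (w + 1)) ≤ Real.sqrt w := by
    apply Real.sqrt_le_sqrt
    apply div_le_self hw.le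
    linarith
  have e2 : b ≤ CK * l / w * Real.sqrt w := by
    refine hb.trans ?_
    gcongr
  have e3 : CK * l / w * Real.sqrt w = CK * l / Real.sqrt w := by
    have hs := Real.mul_self_sqrt hw.le
    have hs0 : 0 < Real.sqrt w := Real.sqrt_pos.2 hw
    rw [div_mul_eq_mul_div, div_eq_div_iff hw.ne' hs0.ne']
    rw [mul_assoc (CK * l), hs]
  have e4 : CK * l / Real.sqrt w ≤ CK * (4 / u) / u ^ 2 := by gcongr
  have e5 : T = u ^ 4 / c₀ := by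
    rw [hu4]
    field_simp
  calc b * T ≤ CK * (4 / u) / u ^ 2 * T := by
        have : b ≤ CK * (4 / u) / u ^ 2 := by
          rw [e3] at e2
          exact e2.trans e4
        gcongr
    _ = 4 * CK / c₀ * u := by
        rw [e5]
        field_simp
    _ ≤ 4 * CK / c₀ * (c₀ / (8 * CK)) := by gcongr
    _ = 1 / 2 := by
        field_simp
        norm_num

/-- the points of the set -/
theorem pts {c₀ C₁ R T E η cL a D : ℝ} (hT : 0 < T) (hη : 0 < η) (hηT : η ≤ T)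
    (h2 : T ≤ 1 / (2 * (1 + C₁))) (h3 : T ≤ cL / (1 + C₁)) (hC₁0 : 0 < C₁)
    (hTR : T * R ≤ a / 2) (hE : |E| ≤ D - a) {m ζ : ℂ} (hm : m ∈ Ks c₀ C₁ R)
    (hζ : ζ = ⟨E, η⟩ + (T : ℂ) * m) :
    c₀ * T ≤ ζ.im ∧ ζ.im ≤ 1 / 2 ∧ ζ.im ≤ cL ∧ |ζ.re| ≤ D - a / 2 := by
  obtain ⟨⟨hm1, hm2⟩, hm3⟩ := hm
  have hre : ζ.re = E + T * m.re := by
    rw [hζ]
    simp
  have him : ζ.im = η + T * m.im := by
    rw [hζ]
    simp
  have e0 : T * m.im ≤ T * C₁ := by gcongr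
  have e1 : ζ.im ≤ T * (1 + C₁) := by
    rw [him, mul_add, mul_one]
    exact add_le_add hηT e0
  have e2 : T * (1 + C₁) ≤ 1 / 2 := by
    calc T * (1 + C₁) ≤ 1 / (2 * (1 + C₁)) * (1 + C₁) := by gcongr
      _ = 1 / 2 := by field_simp
  have e3 : T * (1 + C₁) ≤ cL := by
    calc T * (1 + C₁) ≤ cL / (1 + C₁) * (1 + C₁) := by gcongr
      _ = cL := by field_simp
  refine ⟨?_, e1.trans e2, e1.trans e3, ?_⟩
  · rw [him]
    have e4 : c₀ * T ≤ T * m.im := by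
      rw [mul_comm]
      gcongr
    linarith
  · rw [hre]
    have e4 : |m.re| ≤ R := (Complex.abs_re_le_norm m).trans hm3
    have e5 : |T * m.re| ≤ T * R := by
      rw [abs_mul, abs_of_pos hT]
      gcongr
    have e6 := abs_add_le E (T * m.re)
    linarith

theorem mbr (dsl : DslStmt) (dsu : DsuStmt) (khb : KhbStmt) (ral : RalStmt) : MbrStmt := by
  intro d a hd ha
  obtain ⟨C₁, hC₁, h1⟩ := dsu d hd
  obtain ⟨cL, CL, hcL, hcL1, hCL, h2⟩ := dsl d (a / 2) hd (by positivity)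
  obtain ⟨CK, hCK, h3⟩ := khb d hd
  have hC₁0 : 0 < C₁ := by linarith
  have hCL0 : 0 < CL := by linarith
  have hCK0 : 0 < CK := by linarith
  set c₀ : ℝ := cL / 2 with hc₀
  have hc₀0 : 0 < c₀ := by positivity
  have hc₀1 : c₀ ≤ 1 := by linarith
  -- the bound for `u = (c₀ T)^{1/4}`
  set u₀ : ℝ := min 1 (min (a * c₀ / (8 * C₁)) (c₀ / (8 * CK))) with hu₀
  have hu₀0 : 0 < u₀ := by positivity
  have hu₀1 : u₀ ≤ 1 := min_le_left _ _
  have hu₀2 : u₀ ≤ a * c₀ / (8 * C₁) := (min_le_right _ _).trans (min_le_left _ _)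
  have hu₀3 : u₀ ≤ c₀ / (8 * CK) := (min_le_right _ _).trans (min_le_right _ _)
  set T₀ : ℝ := min (u₀ ^ 4) (min (1 / (2 * (1 + C₁))) (cL / (1 + C₁))) with hT₀
  have hT₀0 : 0 < T₀ := by positivity
  have hT₀1 : T₀ ≤ u₀ ^ 4 := min_le_left _ _
  have hT₀2 : T₀ ≤ 1 / (2 * (1 + C₁)) := (min_le_right _ _).trans (min_le_left _ _)
  have hT₀3 : T₀ ≤ cL / (1 + C₁) := (min_le_right _ _).trans (min_le_right _ _)
  set CC : ℝ := max (C₁ * (1 + Real.log (1 / c₀)))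
    (max (C₁ / c₀) (max (CL / c₀) (CK / c₀ ^ 2))) with hCC
  have hlc : 0 ≤ Real.log (1 / c₀) := Real.log_nonneg (by rw [le_div_iff₀ hc₀0]; linarith)
  have hCC1 : C₁ ≤ CC := by
    refine le_trans ?_ (le_max_left _ _)
    nlinarith
  have hCC2 : C₁ * (1 + Real.log (1 / c₀)) ≤ CC := le_max_left _ _
  have hCC3 : C₁ / c₀ ≤ CC := (le_max_left _ _).trans (le_max_right _ _)
  have hCC4 : CL / c₀ ≤ CC :=
    (le_max_left _ _).trans ((le_max_right _ _).trans (le_max_right _ _))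
  have hCC5 : CK / c₀ ^ 2 ≤ CC :=
    (le_max_right _ _).trans ((le_max_right _ _).trans (le_max_right _ _))
  refine ⟨min c₀ T₀, CC, by positivity, (min_le_left _ _).trans hc₀1, hC₁.trans hCC1, ?_⟩
  intro M _ E η T hE hη hηT hTc hM
  have hT : 0 < T := by linarith
  have hTT : T ≤ T₀ := hTc.trans (min_le_right _ _)
  have hTu : T ≤ u₀ ^ 4 := hTT.trans hT₀1
  have hT1 : T ≤ 1 := by
    refine hTu.trans ?_
    exact pow_le_one₀ hu₀0.le hu₀1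
  -- `u`
  set u : ℝ := (c₀ * T) ^ (1 / 4 : ℝ) with hu
  have hcT : 0 < c₀ * T := by positivity
  have hu0 : 0 < u := by positivity
  have hu4 : u ^ 4 = c₀ * T := by
    rw [hu, ← Real.rpow_natCast, ← Real.rpow_mul hcT.le]
    norm_num
  have huu : u ≤ u₀ := by
    have : u ^ 4 ≤ u₀ ^ 4 := by
      rw [hu4]
      nlinarith
    exact le_of_pow_le_pow_left₀ (by norm_num) hu₀0.le this
  have hu1 : u ≤ 1 := huu.trans hu₀1
  set l : ℝ := 1 + Real.log (1 / (c₀ * T)) with hl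
  have hlu : l ≤ 4 / u := by
    rw [hl, ← hu4]
    exact log_le_u hu0
  have hcT1 : c₀ * T ≤ 1 := by nlinarith
  have hl1 : 1 ≤ l := by
    have : 0 ≤ Real.log (1 / (c₀ * T)) := Real.log_nonneg (by rw [le_div_iff₀ hcT]; linarith)
    linarith
  have hlT : l = 1 + Real.log (1 / c₀) + Real.log (1 / T) := by
    rw [hl, show 1 / (c₀ * T) = 1 / c₀ * (1 / T) by field_simp,
      Real.log_mul (by positivity) (by positivity)]
    ring
  set R : ℝ := C₁ * l with hR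
  have hTR : T * R ≤ a / 2 := TR_le hc₀0 hC₁0 hu0 hu1 hu4 hlu (huu.trans hu₀2)
  -- the points of the set
  have hζ : ∀ m ∈ Ks c₀ C₁ R, ∀ ζ : ℂ, ζ = ⟨E, η⟩ + (T : ℂ) * m →
      c₀ * T ≤ ζ.im ∧ ζ.im ≤ 1 / 2 ∧ ζ.im ≤ cL ∧ |ζ.re| ≤ 2 * d - a / 2 :=
    fun m hm ζ hζ => pts hT hη hηT (hTT.trans hT₀2) (hTT.trans hT₀3) hC₁0 hTR hE hm hζ
  -- conditions on `M`
  have hMc : ∀ (C w : ℝ), 0 < C → C / c₀ ≤ CC → c₀ * T ≤ w → C / w ≤ M := by
    intro C w hC h5 hw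
    refine le_trans ?_ hM
    have e1 : C / w ≤ C / (c₀ * T) := by gcongr
    have e2 : C / (c₀ * T) = C / c₀ / T := by field_simp
    have e3 : C / c₀ / T ≤ CC / T := by gcongr
    have e4 : CC / T ≤ CC / T ^ 2 := by
      have : T ^ 2 ≤ T := by nlinarith
      have hCC0 : 0 < CC := by linarith
      gcongr
    linarith
  have hMk : ∀ w : ℝ, c₀ * T ≤ w → CK / w ^ 2 ≤ M := by
    intro w hw
    refine le_trans ?_ hM
    have e1 : CK / w ^ 2 ≤ CK / (c₀ * T) ^ 2 := by gcongr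
    have e2 : CK / (c₀ * T) ^ 2 = CK / c₀ ^ 2 / T ^ 2 := by field_simp
    have e3 : CK / c₀ ^ 2 / T ^ 2 ≤ CC / T ^ 2 := by gcongr
    linarith
  have hlogw : ∀ w : ℝ, c₀ * T ≤ w → 1 + Real.log (1 / w) ≤ l := by
    intro w hw
    rw [hl]
    have : Real.log (1 / w) ≤ Real.log (1 / (c₀ * T)) := by
      have hw0 : 0 < w := by linarith
      apply Real.log_le_log (by positivity)
      gcongr
    linarith
  -- the map
  set f : ℂ → ℂ := fun m => Fz d M (⟨E, η⟩ + (T : ℂ) * m) with hf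
  have hmaps : ∀ m ∈ Ks c₀ C₁ R, f m ∈ Ks c₀ C₁ R := by
    intro m hm
    obtain ⟨z1, z2, z3, z4⟩ := hζ m hm _ rfl
    have z0 : 0 < (⟨E, η⟩ + (T : ℂ) * m : ℂ).im := by linarith
    obtain ⟨k1, k2⟩ := h1 M (⟨E, η⟩ + (T : ℂ) * m : ℂ).re (⟨E, η⟩ + (T : ℂ) * m : ℂ).im z0
      (by linarith) (hMc C₁ _ hC₁0 hCC3 z1)
    have hlow := h2 M (⟨E, η⟩ + (T : ℂ) * m : ℂ).re (⟨E, η⟩ + (T : ℂ) * m : ℂ).im 0
      ⟨0, by omega⟩ z4 z0 z3 (hMc CL _ hCL0 hCC4 z1)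
    refine ⟨⟨Fz_low z0 _ hlow, ?_⟩, ?_⟩
    · rw [hf]
      simp only
      rw [Fz_im]
      exact k1
    · refine (Fz_norm _).trans (k2.trans ?_)
      rw [hR]
      have := hlogw _ z1
      gcongr
  have hder : ∀ m ∈ Ks c₀ C₁ R,
      HasDerivAt f (bh (⟨E, η⟩ + (T : ℂ) * m) (0 : Tor d M) * T) m := by
    intro m hm
    obtain ⟨z1, z2, z3, z4⟩ := hζ m hm _ rfl
    have z0 : 0 < (⟨E, η⟩ + (T : ℂ) * m : ℂ).im := by linarith
    have e1 : HasDerivAt (fun m : ℂ => (⟨E, η⟩ : ℂ) + (T : ℂ) * m) (T : ℂ) m := by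
      simpa using ((hasDerivAt_id m).const_mul (T : ℂ)).const_add (⟨E, η⟩ : ℂ)
    exact (Fz_deriv (d := d) (M := M) z0).comp m e1
  have hbd : ∀ m ∈ Ks c₀ C₁ R, ‖bh (⟨E, η⟩ + (T : ℂ) * m) (0 : Tor d M) * T‖ ≤ 1 / 2 := by
    intro m hm
    obtain ⟨z1, z2, z3, z4⟩ := hζ m hm _ rfl
    set ζ : ℂ := ⟨E, η⟩ + (T : ℂ) * m with hζd
    have z0 : 0 < ζ.im := by linarith
    obtain ⟨-, k2⟩ := h3 M ζ (0 : Tor d M) ⟨0, by omega⟩ z0 z2 (hMk _ z1)
    have e0 : |Real.cos (Real.pi * (((0 : Tor d M) ⟨0, by omega⟩).valMinAbs : ℝ) / M)| = 1 := by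
      simp
    rw [e0] at k2
    rw [norm_mul, Complex.norm_real, Real.norm_of_nonneg hT.le]
    refine bd_le hc₀0 hCK0 hT.le z0 (zero_le_one.trans hl1) hu0 hu4 hlu (huu.trans hu₀3) z1
      (k2.trans ?_)
    have := hlogw _ z1
    gcongr
  have hC0 : c₀ ≤ C₁ := hc₀1.trans hC₁
  have hC0R : c₀ ≤ R := by
    calc c₀ ≤ C₁ * 1 := by rw [mul_one]; exact hC0
      _ ≤ R := by rw [hR]; gcongr
  have hne : (Ks c₀ C₁ R).Nonempty := Ks_ne hc₀0.le hC0 hC0R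
  obtain ⟨m, hm, hfm⟩ := fix_of_deriv (Ks_closed c₀ C₁ R) (Ks_convex c₀ C₁ R) hne f _ hmaps hder hbd
  obtain ⟨z1, z2, z3, z4⟩ := hζ m hm _ rfl
  obtain ⟨⟨hm1, hm2⟩, hm3⟩ := hm
  refine ⟨m, ?_, ?_, ?_, ?_⟩
  · rw [rs_diag ral _ (by linarith)]
    exact hfm
  · exact (min_le_left _ _).trans hm1
  · exact hm2.trans hCC1
  · refine hm3.trans ?_
    rw [hR, hlT]
    have hlT0 : 0 ≤ Real.log (1 / T) := Real.log_nonneg (by rw [le_div_iff₀ hT]; linarith)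
    calc C₁ * (1 + Real.log (1 / c₀) + Real.log (1 / T))
        ≤ C₁ * (1 + Real.log (1 / c₀)) * (1 + Real.log (1 / T)) := last_le hC₁0.le hlc hlT0
      _ ≤ CC * (1 + Real.log (1 / T)) := by gcongr

end Pool.Agent.LE.QF.H68
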