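import Pool.Agent.Helper68_LQF.INIe

/-!
# The parameters: the final statement
-/

set_option autoImplicit false

open MeasureTheory ProbabilityTheory Function Filter

open scoped ENNReal BigOperators Topology NNReal ComplexOrder Matrix

noncomputable section

namespace Pool.Agent.LE.QF.H68

open Pool.Agent.Anderson hiding box mem_box card_box
open Pool.Agent.Loc Pool.Agent.Mob Pool.Agent.Helper54.Bal
  Pool.Agent.Helper96.EXP Pool.Agent.BED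
open Pool.Agent.LE.MN Pool.Agent.LE.CL Pool.Agent.LE.IR Pool.Agent.LE.QD

variable {K : Cst} {M : ℕ} [NeZero M] {s E η : ℝ} {m : ℂ}

namespace Giv

/-- the sums of `S` -/
theorem sSm (g : Giv K M s E η m) (hK : K.Ok) (F : Fac K) (C' : Finset (Tor K.d M))
    (hC : (C'.card : ℝ) ≤ s ^ (-((K.d : ℝ) * (K.d + 1 - K.ε)))) :
    ∑ x ∈ C', ∑ y ∈ C', (mkD K s E η m M).S x y ≤ s ^ K.θ * C'.card / η := by
  have hs := g.hs.q0.1
  have hw := g.wpos hK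
  have hcs0 : 0 < K.cs := by linarith [hK.hcs]
  have hd := hK.dpos
  have hε1 := hK.hε.2
  have hε := hK.hε.1
  set ρ : ℝ := s ^ ((K.d : ℝ) + 1 - 3 * K.ε / 4) with hρ
  have hMρ : 1 ≤ (M : ℝ) * ρ := by
    apply M_large K.d hs g.s1 g.hM1
    linarith
  obtain ⟨hJ1, hJ2, hJ3⟩ := ceil_bound g.Mpos hMρ
  have h1 := F.mss M (Jv K s M) ⌈(M : ℝ) * ρ⌉₊ K.cs (wv s η m) C' hJ1 hcs0 hw
  have hJ0 : (0 : ℝ) < (⌈(M : ℝ) * ρ⌉₊ : ℝ) := by
    have : 0 < ⌈(M : ℝ) * ρ⌉₊ := by omega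
    exact_mod_cast this
  have hM := g.Mpos
  have h2 : wv s η m * (M : ℝ) ^ 2 / (⌈(M : ℝ) * ρ⌉₊ : ℝ) ^ 2 =
      wv s η m / ((⌈(M : ℝ) * ρ⌉₊ : ℝ) / M) ^ 2 := by
    field_simp
  rw [h2] at h1
  refine h1.trans ?_
  exact sS_bound hK.hd hs g.s1 hε hε1 hK.hcm.1 (by linarith [hK.Cwpos]) g.w1 (g.w2 hK) g.hη
    (by linarith [hK.hCS]) hcs0.le hρ hJ2 hJ3 (Nat.cast_nonneg _) hC rfl g.hs.q22

end Giv

theorem ini (mbr : MbrStmt) (inm : InmStmt) (inw : InwStmt) (gal : GalStmt) (khb : KhbStmt)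
    (bqb : BqbStmt) (frb : FrbStmt) (kft : KftStmt) (mss : MssStmt) (ral : RalStmt) :
    IniStmt := by
  intro d a ε hd ha hε hε1
  obtain ⟨cm, Cm, hcm, hcm1, hCm, hmbr⟩ := mbr d a hd ha
  obtain ⟨CI, hCI, hinm⟩ := inm d hd
  obtain ⟨CK, hCK, hkhb⟩ := khb d hd
  obtain ⟨CB, hCB, hbqb⟩ := bqb d hd
  obtain ⟨CF, hCF, hfrb⟩ := frb d hd
  obtain ⟨CS, hCS, hmss⟩ := mss d hd
  obtain ⟨cG, CG, hcG, hcG2, hCG, hgal⟩ := gal d (a / 2) hd (by positivity)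
  have hd3 : (3 : ℝ) ≤ d := by exact_mod_cast hd
  set θ : ℝ := ε / (24 * d) with hθ
  have hθ0 : 0 < θ := by positivity
  have hθ1 : θ ≤ 1 / 10 := by
    rw [hθ, div_le_div_iff₀ (by positivity) (by norm_num)]
    nlinarith
  set k₀ : ℕ := ⌈(d : ℝ) * (4 * d + 6) / (6 * θ)⌉₊ + 1 with hk₀
  have hk : (d : ℝ) * (4 * d + 6) < 6 * k₀ * θ := by
    have h1 : (d : ℝ) * (4 * d + 6) / (6 * θ) ≤ (⌈(d : ℝ) * (4 * d + 6) / (6 * θ)⌉₊ : ℝ) :=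
      Nat.le_ceil _
    have h2 : (k₀ : ℝ) = (⌈(d : ℝ) * (4 * d + 6) / (6 * θ)⌉₊ : ℝ) + 1 := by
      rw [hk₀]
      push_cast
      ring
    have h3 : (d : ℝ) * (4 * d + 6) / (6 * θ) < k₀ := by linarith
    rw [div_lt_iff₀ (by positivity)] at h3
    linarith
  refine ⟨θ, cm, max Cm CF, k₀, hθ0, hθ1, hcm, hCm.trans (le_max_left _ _), ?_⟩
  intro c₀ hc₀
  set cs : ℝ := max 1 (2 * Cm / cG) with hcs
  set K : Cst := ⟨d, k₀, ε, a, c₀, cm, Cm, CI, CK, CB, CF, CS, cG, CG, cs⟩ with hKd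
  have hK : K.Ok :=
    { hd := hd
      hε := ⟨hε, hε1⟩
      ha := ha
      hc₀ := hc₀
      hcm := ⟨hcm, hcm1⟩
      hCm := hCm
      hCI := hCI
      hCK := hCK
      hCB := hCB
      hCF := hCF
      hCS := hCS
      hcG := hcG
      hCG := hCG
      hcs := le_max_left _ _
      hk₀ := hk }
  have F : Fac K :=
    { khb := hkhb
      bqb := hbqb
      frb := hfrb
      inm := hinm
      gal := hgal
      mss := hmss }
  have hcs2 : 2 * K.Cm ≤ K.cG * K.cs := by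
    have h1 : 2 * Cm / cG ≤ cs := le_max_right _ _
    rw [div_le_iff₀ hcG] at h1
    show 2 * Cm ≤ cG * cs
    linarith
  obtain ⟨c, hc0, hc4, hc⟩ := hK.exists_c
  refine ⟨c, 54, hc0, hc4, by norm_num, ?_⟩
  intro M _ σ E η hσ hσc hE1 hE2 hη hM1 hM2
  have hs0 : 0 < |σ| := abs_pos.2 hσ
  have hs2 : σ ^ 2 = |σ| ^ 2 := (sq_abs σ).symm
  rw [hs2]
  generalize |σ| = s at hs0 hσc hE1 hη hM1 hM2
  have hcnd := hc s hs0 hσc
  have hs1 : s ≤ 1 := by linarith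
  have hη0 : 0 < η := by
    rw [hη]
    positivity
  have hηT : η ≤ s ^ 2 := by
    rw [hη, ← Real.rpow_natCast]
    apply Real.rpow_le_rpow_of_exponent_ge hs0 hs1
    push_cast
    linarith
  have hMT : Cm / (s ^ 2) ^ 2 ≤ M := by
    have h1 : Cm * s ≤ 1 := hcnd.q3.2.2.2.2
    calc Cm / (s ^ 2) ^ 2 = Cm * s * (s ^ 5)⁻¹ := by field_simp
      _ ≤ 1 * (s ^ 5)⁻¹ := by gcongr
      _ = s ^ (-(5 : ℝ)) := by
          rw [one_mul, Real.rpow_neg hs0.le]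
          congr 1
          rw [← Real.rpow_natCast]
          norm_num
      _ ≤ s ^ (-(4 * (d : ℝ) + 4)) :=
          Real.rpow_le_rpow_of_exponent_ge hs0 hs1 (by linarith)
      _ ≤ M := hM1
  obtain ⟨m, hm0, hm1, hm2, hm3⟩ := hmbr M E η (s ^ 2) hE2 hη0 hηT hcnd.q1.1 hMT
  have g : Giv K M s E η m := ⟨hcnd, hE1, hE2, hη, hM1, hM2, hm0, hm1, hm2, hm3⟩
  have hx := g.xpos
  have hx1 := g.x1
  have hθK : K.θ = θ := rfl
  refine ⟨mkD K s E η m M, g.adm hK F kft inw ral hcs2, rfl, rfl, rfl, g.aNm hK, ?_, ?_, ?_, ?_,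
    ?_, g.sSm hK F⟩
  · show (⌈((s ^ K.θ) ^ 4)⁻¹⌉₊ : ℝ) ≤ s ^ (-1 : ℝ)
    have h1 := Nat.ceil_lt_add_one (by positivity : 0 ≤ ((s ^ K.θ) ^ 4)⁻¹)
    have h2 := g.xi 4
    have h3 : 2 * ((s ^ K.θ) ^ 4)⁻¹ ≤ s⁻¹ := by
      have h4 := hcnd.q20
      rw [← div_eq_mul_inv, div_le_iff₀ (by positivity), inv_mul_eq_div, le_div_iff₀ hs0]
      exact h4
    rw [Real.rpow_neg_one]
    linarith
  · show (s ^ K.θ) ^ 5 ≤ s ^ K.θ
    calc (s ^ K.θ) ^ 5 ≤ (s ^ K.θ) ^ 1 := pow_le_pow_of_le_one hx.le hx1 (by norm_num)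
      _ = s ^ K.θ := pow_one _
  · show 1 + (s ^ K.θ) ^ 3 - 1 ≤ s ^ K.θ
    calc 1 + (s ^ K.θ) ^ 3 - 1 = (s ^ K.θ) ^ 3 := by ring
      _ ≤ (s ^ K.θ) ^ 1 := pow_le_pow_of_le_one hx.le hx1 (by norm_num)
      _ = s ^ K.θ := pow_one _
  · rw [mk_w]
    linarith [g.w_half hK]
  · have h1 : s ^ (-θ) = (s ^ K.θ)⁻¹ := by
      rw [hθK, Real.rpow_neg hs0.le]
    rw [h1]
    refine bN_bound hx hx1 (Nat.le_ceil _) (Nat.le_ceil _) ?_
    have h2 : 8 ≤ (s ^ K.θ)⁻¹ := by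
      rw [le_inv_comm₀ (by norm_num) hx]
      have := hcnd.q5.2
      linarith
    have h3 := Real.add_one_le_exp ((s ^ K.θ)⁻¹ / 8)
    linarith

end Pool.Agent.LE.QF.H68
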