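import Mathlib

/-!
# The parameters: numbers
-/

set_option autoImplicit false

open Filter

open scoped BigOperators Topology

noncomputable section

namespace Pool.Agent.LE.QF.H68

theorem log_bound {s γ : ℝ} (hs : 0 < s) (hs1 : s ≤ 1) (hγ : 0 < γ) :
    1 + Real.log (1 / s) ≤ (1 + 1 / γ) * s ^ (-γ) := by
  have h1 : (1 : ℝ) ≤ s ^ (-γ) := by
    apply Real.one_le_rpow_of_pos_of_le_one_of_nonpos hs hs1
    linarith
  have h2 : Real.log (1 / s) = 1 / γ * Real.log (s ^ (-γ)) := by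
    rw [Real.log_rpow hs, one_div, Real.log_inv]
    field_simp
  have h3 : Real.log (s ^ (-γ)) ≤ s ^ (-γ) - 1 :=
    Real.log_le_sub_one_of_pos (by positivity)
  have h4 : 0 < 1 / γ := by positivity
  rw [h2]
  nlinarith

/-- powers beat logarithms -/
theorem evt (K α β : ℝ) (k : ℕ) (h : β < α) :
    ∀ᶠ s in 𝓝[>] (0 : ℝ), K * s ^ α * (1 + Real.log (1 / s)) ^ k ≤ s ^ β := by
  set γ : ℝ := (α - β) / (k + 1) with hγ
  have hk : (0 : ℝ) < (k : ℝ) + 1 := by positivity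
  have hγ0 : 0 < γ := by
    apply div_pos _ hk
    linarith
  have ht : Tendsto (fun s : ℝ => |K| * (1 + 1 / γ) ^ k * s ^ γ) (𝓝[>] 0) (𝓝 0) := by
    have h1 : Tendsto (fun s : ℝ => s ^ γ) (𝓝[>] 0) (𝓝 0) := by
      have h2 : ContinuousAt (fun s : ℝ => s ^ γ) 0 :=
        Real.continuousAt_rpow_const _ _ (Or.inr hγ0.le)
      have h3 := h2.tendsto
      rw [Real.zero_rpow hγ0.ne'] at h3
      exact h3.mono_left nhdsWithin_le_nhds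
    simpa using h1.const_mul (|K| * (1 + 1 / γ) ^ k)
  have e1 : ∀ᶠ s in 𝓝[>] (0 : ℝ), |K| * (1 + 1 / γ) ^ k * s ^ γ < 1 :=
    ht.eventually (gt_mem_nhds one_pos)
  have e2 : ∀ᶠ s in 𝓝[>] (0 : ℝ), 0 < s := self_mem_nhdsWithin
  have e3 : ∀ᶠ s in 𝓝[>] (0 : ℝ), s < 1 :=
    nhdsWithin_le_nhds (gt_mem_nhds one_pos)
  filter_upwards [e1, e2, e3] with s h1 h2 h3
  have hl0 : 0 ≤ Real.log (1 / s) := Real.log_nonneg (by rw [le_div_iff₀ h2]; linarith)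
  have hl : 0 ≤ 1 + Real.log (1 / s) := by linarith
  have hb := log_bound h2 h3.le hγ0
  calc K * s ^ α * (1 + Real.log (1 / s)) ^ k
      ≤ |K| * s ^ α * ((1 + 1 / γ) * s ^ (-γ)) ^ k := by
        have := le_abs_self K
        gcongr
    _ = |K| * (1 + 1 / γ) ^ k * s ^ γ * s ^ β := by
        rw [mul_pow, ← Real.rpow_natCast (s ^ (-γ)) k, ← Real.rpow_mul h2.le]
        have e5 : s ^ γ * s ^ β = s ^ α * s ^ (-γ * (k : ℝ)) := by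
          rw [← Real.rpow_add h2, ← Real.rpow_add h2]
          congr 1
          have : γ * (k + 1) = α - β := by
            rw [hγ]
            field_simp
          linarith
        rw [mul_assoc (|K| * (1 + 1 / γ) ^ k), e5]
        ring
    _ ≤ 1 * s ^ β := by gcongr
    _ = s ^ β := one_mul _

/-- the same with a constant on the right -/
theorem evc (K α c : ℝ) (k : ℕ) (h : 0 < α) (hc : 0 < c) :
    ∀ᶠ s in 𝓝[>] (0 : ℝ), K * s ^ α * (1 + Real.log (1 / s)) ^ k ≤ c := by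
  filter_upwards [evt (K / c) α 0 k h] with s hs
  rw [Real.rpow_zero] at hs
  have : K * s ^ α * (1 + Real.log (1 / s)) ^ k =
      c * (K / c * s ^ α * (1 + Real.log (1 / s)) ^ k) := by
    field_simp
  rw [this]
  calc c * (K / c * s ^ α * (1 + Real.log (1 / s)) ^ k) ≤ c * 1 := by gcongr
    _ = c := mul_one _

theorem evt0 (K α β : ℝ) (h : β < α) : ∀ᶠ s in 𝓝[>] (0 : ℝ), K * s ^ α ≤ s ^ β := by
  filter_upwards [evt K α β 0 h] with s hs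
  simpa using hs

theorem evc0 (K α c : ℝ) (h : 0 < α) (hc : 0 < c) :
    ∀ᶠ s in 𝓝[>] (0 : ℝ), K * s ^ α ≤ c := by
  filter_upwards [evc K α c 0 h hc] with s hs
  simpa using hs

theorem xpow {s : ℝ} (hs : 0 < s) (θ : ℝ) (n : ℕ) : (s ^ θ) ^ n = s ^ ((n : ℝ) * θ) := by
  rw [← Real.rpow_natCast, ← Real.rpow_mul hs.le, mul_comm]

/-- the errors -/
theorem aN_bound {Nw pe x j p ch : ℝ} (hx : 0 < x) (hx1 : x ≤ 1) (hN0 : 0 ≤ Nw)
    (hN : Nw ≤ x ^ 20) (hp0 : 0 ≤ pe) (hp : pe ≤ x ^ 20) (hj0 : 0 ≤ j) (hj : j ≤ 2 / x)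
    (hpp0 : 0 ≤ p) (hpp : p ≤ 2 / x ^ 4) (hch : ch = (x ^ 6)⁻¹ * (Nw + pe + (x ^ 5) ^ 4)) :
    j * (x ^ 5 + Real.sqrt ch / x ^ 5 + x ^ 5 / x ^ 3) +
      j ^ 2 * (ch / (x ^ 5) ^ 2 + (Nw + (x ^ 5) ^ 2) / (x ^ 3) ^ 2 +
        1 / Real.sqrt ((x ^ 6)⁻¹) + x ^ 3 + (1 + x ^ 3 - 1)) +
      p * x ^ 5 + p ^ 2 * (Nw + (x ^ 5) ^ 2 + pe) ≤ 54 * x := by
  have hch1 : ch ≤ 3 * x ^ 14 := by
    rw [hch]
    calc (x ^ 6)⁻¹ * (Nw + pe + (x ^ 5) ^ 4) ≤ (x ^ 6)⁻¹ * (x ^ 20 + x ^ 20 + (x ^ 5) ^ 4) := by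
          gcongr
      _ = 3 * x ^ 14 := by
          field_simp
          ring
  have hsq : Real.sqrt ch ≤ 2 * x ^ 7 := by
    apply Real.sqrt_le_iff.2
    refine ⟨by positivity, ?_⟩
    have : (2 * x ^ 7) ^ 2 = 4 * x ^ 14 := by ring
    rw [this]
    have : 0 ≤ x ^ 14 := by positivity
    linarith
  have hpow : ∀ m n : ℕ, n ≤ m → x ^ m ≤ x ^ n := fun m n h =>
    pow_le_pow_of_le_one hx.le hx1 h
  have t1 : x ^ 5 + Real.sqrt ch / x ^ 5 + x ^ 5 / x ^ 3 ≤ 4 * x ^ 2 := by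
    have a1 : x ^ 5 ≤ x ^ 2 := hpow _ _ (by norm_num)
    have a2 : Real.sqrt ch / x ^ 5 ≤ 2 * x ^ 2 := by
      rw [div_le_iff₀ (by positivity)]
      calc Real.sqrt ch ≤ 2 * x ^ 7 := hsq
        _ = 2 * x ^ 2 * x ^ 5 := by ring
    have a3 : x ^ 5 / x ^ 3 = x ^ 2 := by
      field_simp
    linarith
  have t2 : ch / (x ^ 5) ^ 2 + (Nw + (x ^ 5) ^ 2) / (x ^ 3) ^ 2 +
      1 / Real.sqrt ((x ^ 6)⁻¹) + x ^ 3 + (1 + x ^ 3 - 1) ≤ 8 * x ^ 3 := by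
    have a1 : ch / (x ^ 5) ^ 2 ≤ 3 * x ^ 4 := by
      rw [div_le_iff₀ (by positivity)]
      calc ch ≤ 3 * x ^ 14 := hch1
        _ = 3 * x ^ 4 * (x ^ 5) ^ 2 := by ring
    have a2 : (Nw + (x ^ 5) ^ 2) / (x ^ 3) ^ 2 ≤ 2 * x ^ 4 := by
      rw [div_le_iff₀ (by positivity)]
      have : x ^ 20 ≤ x ^ 10 := hpow _ _ (by norm_num)
      calc Nw + (x ^ 5) ^ 2 ≤ x ^ 10 + (x ^ 5) ^ 2 := by linarith
        _ = 2 * x ^ 4 * (x ^ 3) ^ 2 := by ring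
    have a3 : 1 / Real.sqrt ((x ^ 6)⁻¹) = x ^ 3 := by
      rw [Real.sqrt_inv, show x ^ 6 = (x ^ 3) ^ 2 by ring, Real.sqrt_sq (by positivity)]
      simp
    have a4 : x ^ 4 ≤ x ^ 3 := hpow _ _ (by norm_num)
    rw [a3]
    linarith
  have t3 : Nw + (x ^ 5) ^ 2 + pe ≤ 3 * x ^ 10 := by
    have : x ^ 20 ≤ x ^ 10 := hpow _ _ (by norm_num)
    have e : (x ^ 5) ^ 2 = x ^ 10 := by ring
    rw [e]
    linarith
  have u1 : j * (x ^ 5 + Real.sqrt ch / x ^ 5 + x ^ 5 / x ^ 3) ≤ 8 * x := by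
    calc j * (x ^ 5 + Real.sqrt ch / x ^ 5 + x ^ 5 / x ^ 3) ≤ 2 / x * (4 * x ^ 2) := by gcongr
      _ = 8 * x := by
          field_simp
          ring
  have u2 : j ^ 2 * (ch / (x ^ 5) ^ 2 + (Nw + (x ^ 5) ^ 2) / (x ^ 3) ^ 2 +
        1 / Real.sqrt ((x ^ 6)⁻¹) + x ^ 3 + (1 + x ^ 3 - 1)) ≤ 32 * x := by
    calc j ^ 2 * (ch / (x ^ 5) ^ 2 + (Nw + (x ^ 5) ^ 2) / (x ^ 3) ^ 2 +
        1 / Real.sqrt ((x ^ 6)⁻¹) + x ^ 3 + (1 + x ^ 3 - 1)) ≤ j ^ 2 * (8 * x ^ 3) := by gcongr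
      _ ≤ (2 / x) ^ 2 * (8 * x ^ 3) := by gcongr
      _ = 32 * x := by
          field_simp
          ring
  have u3 : p * x ^ 5 ≤ 2 * x := by
    calc p * x ^ 5 ≤ 2 / x ^ 4 * x ^ 5 := by gcongr
      _ = 2 * x := by
          field_simp
  have u4 : p ^ 2 * (Nw + (x ^ 5) ^ 2 + pe) ≤ 12 * x := by
    calc p ^ 2 * (Nw + (x ^ 5) ^ 2 + pe) ≤ p ^ 2 * (3 * x ^ 10) := by gcongr
      _ ≤ (2 / x ^ 4) ^ 2 * (3 * x ^ 10) := by gcongr
      _ = 12 * x ^ 2 := by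
          field_simp
          ring
      _ ≤ 12 * x := by nlinarith
  linarith

/-- the additive errors -/
theorem bN_bound {x : ℝ} {j p : ℕ} (hx : 0 < x) (hx1 : x ≤ 1) (hj : x⁻¹ ≤ j)
    (hp : (x ^ 4)⁻¹ ≤ p) (h2 : 2 ≤ Real.exp (x⁻¹ / 8)) :
    (1 / 4 : ℝ) ^ j + (1 / (1 + x ^ 3 / 2)) ^ p ≤ Real.exp (-(x⁻¹ / 8)) := by
  have hxi : 0 < x⁻¹ := by positivity
  have a1 : (1 / 4 : ℝ) ^ j ≤ Real.exp (-(x⁻¹ / 4)) := by
    have b1 : (1 / 4 : ℝ) ≤ Real.exp (-1) := by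
      rw [Real.exp_neg, one_div]
      apply inv_anti₀ (Real.exp_pos 1)
      have := Real.exp_one_lt_d9
      linarith
    calc (1 / 4 : ℝ) ^ j ≤ (Real.exp (-1)) ^ j := by gcongr
      _ = Real.exp (-(j : ℝ)) := by
          rw [← Real.exp_nat_mul]
          congr 1
          ring
      _ ≤ Real.exp (-(x⁻¹ / 4)) := by
          apply Real.exp_le_exp.2
          linarith
  have a2 : (1 / (1 + x ^ 3 / 2)) ^ p ≤ Real.exp (-(x⁻¹ / 4)) := by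
    have hx3 : 0 < x ^ 3 := by positivity
    have hx3' : x ^ 3 ≤ 1 := pow_le_one₀ hx.le hx1
    have b1 : 1 / (1 + x ^ 3 / 2) ≤ Real.exp (-(x ^ 3 / 4)) := by
      have b2 : 1 / (1 + x ^ 3 / 2) ≤ 1 - x ^ 3 / 4 := by
        rw [div_le_iff₀ (by positivity)]
        nlinarith
      have b3 := Real.add_one_le_exp (-(x ^ 3 / 4))
      linarith
    calc (1 / (1 + x ^ 3 / 2)) ^ p ≤ (Real.exp (-(x ^ 3 / 4))) ^ p := by gcongr
      _ = Real.exp ((p : ℝ) * -(x ^ 3 / 4)) := by rw [← Real.exp_nat_mul]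
      _ ≤ Real.exp (-(x⁻¹ / 4)) := by
          apply Real.exp_le_exp.2
          have b4 : (x ^ 4)⁻¹ * (x ^ 3 / 4) ≤ p * (x ^ 3 / 4) := by gcongr
          have b5 : (x ^ 4)⁻¹ * (x ^ 3 / 4) = x⁻¹ / 4 := by
            field_simp
          rw [b5] at b4
          linarith
  have a3 : 2 * Real.exp (-(x⁻¹ / 4)) ≤ Real.exp (-(x⁻¹ / 8)) := by
    have b1 : Real.exp (-(x⁻¹ / 8)) = Real.exp (x⁻¹ / 8) * Real.exp (-(x⁻¹ / 4)) := by
      rw [← Real.exp_add]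
      congr 1
      ring
    rw [b1]
    gcongr
  linarith

/-- the logarithm of `w` -/
theorem lw_bound {s w cm : ℝ} (hs : 0 < s) (hs1 : s ≤ 1) (hcm : 0 < cm) (hcm1 : cm ≤ 1)
    (hw : cm * s ^ 2 ≤ w) :
    1 + Real.log (1 / w) ≤ (2 + Real.log (1 / cm)) * (1 + Real.log (1 / s)) := by
  have h0 : 0 < cm * s ^ 2 := by positivity
  have h1 : Real.log (1 / w) ≤ Real.log (1 / (cm * s ^ 2)) := by
    have hw0 : 0 < w := by linarith
    apply Real.log_le_log (by positivity)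
    gcongr
  have h2 : Real.log (1 / (cm * s ^ 2)) = Real.log (1 / cm) + 2 * Real.log (1 / s) := by
    rw [show 1 / (cm * s ^ 2) = 1 / cm * (1 / s) ^ 2 by field_simp,
      Real.log_mul (by positivity) (by positivity), Real.log_pow]
    push_cast
    ring
  have h3 : 0 ≤ Real.log (1 / cm) := Real.log_nonneg (by rw [le_div_iff₀ hcm]; linarith)
  have h4 : 0 ≤ Real.log (1 / s) := Real.log_nonneg (by rw [le_div_iff₀ hs]; linarith)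
  have h5 : 0 ≤ Real.log (1 / cm) * Real.log (1 / s) := by positivity
  nlinarith

/-- the logarithm of `M` -/
theorem lM_bound {s Mr A : ℝ} (hs : 0 < s) (hs1 : s ≤ 1) (hM : 1 ≤ Mr) (hA : 1 ≤ A)
    (h : Mr ≤ s ^ (-A)) : 1 + Real.log Mr ≤ A * (1 + Real.log (1 / s)) := by
  have h1 : Real.log Mr ≤ Real.log (s ^ (-A)) := Real.log_le_log (by linarith) h
  have h2 : Real.log (s ^ (-A)) = A * Real.log (1 / s) := by
    rw [Real.log_rpow hs, one_div, Real.log_inv]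
    ring
  rw [h2] at h1
  linarith

/-- the ceiling of `M r` -/
theorem ceil_bound {Mr r : ℝ} (hM : 0 < Mr) (h : 1 ≤ Mr * r) :
    1 ≤ ⌈Mr * r⌉₊ ∧ r ≤ (⌈Mr * r⌉₊ : ℝ) / Mr ∧ (⌈Mr * r⌉₊ : ℝ) / Mr ≤ 2 * r := by
  have h1 : Mr * r ≤ (⌈Mr * r⌉₊ : ℝ) := Nat.le_ceil _
  have h2 : (⌈Mr * r⌉₊ : ℝ) < Mr * r + 1 := Nat.ceil_lt_add_one (by linarith)
  refine ⟨?_, ?_, ?_⟩
  · have : (1 : ℝ) ≤ (⌈Mr * r⌉₊ : ℝ) := h.trans h1
    exact_mod_cast this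
  · rw [le_div_iff₀ hM]
    linarith
  · rw [div_le_iff₀ hM]
    linarith

/-- the sums of `S`, numbers -/
theorem sS_bound {s ε cm Cw η w CS cs K ρ q N θ : ℝ} {d : ℕ} (hd : 3 ≤ d) (hs : 0 < s)
    (hs1 : s ≤ 1) (hε : 0 < ε) (hε1 : ε ≤ 1) (hcm : 0 < cm) (hCw : 0 < Cw) (hw1 : cm * s ^ 2 ≤ w)
    (hw2 : w ≤ Cw * s ^ 2) (hη : η = s ^ (2 * (d : ℝ) - ε)) (hCS : 0 ≤ CS) (hcs : 0 ≤ cs)
    (hρ : ρ = s ^ ((d : ℝ) + 1 - 3 * ε / 4)) (hq1 : ρ ≤ q) (hq2 : q ≤ 2 * ρ) (hN0 : 0 ≤ N)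
    (hN : N ≤ s ^ (-((d : ℝ) * (d + 1 - ε))))
    (hK : K = CS * cs * ((1 / cm + Cw) * (1 + 2 ^ d)))
    (hθ : K * s ^ (ε / 2) ≤ s ^ θ) :
    CS * cs * ((1 / w + w / q ^ 2) * N + (q ^ d / w + w * q ^ (d - 2)) * N ^ 2) ≤
      s ^ θ * N / η := by
  have hd3 : (3 : ℝ) ≤ d := by exact_mod_cast hd
  have hη0 : 0 < η := by
    rw [hη]
    positivity
  have hρ0 : 0 < ρ := by
    rw [hρ]
    positivity
  have hq0 : 0 < q := by linarith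
  have hcs2 : 0 < cm * s ^ 2 := by positivity
  have hw0 : 0 < w := by linarith
  have hle : ∀ α β : ℝ, β ≤ α → s ^ α ≤ s ^ β := fun α β h =>
    Real.rpow_le_rpow_of_exponent_ge hs hs1 h
  have hs2 : s ^ 2 = s ^ (2 : ℝ) := by
    rw [← Real.rpow_natCast]
    norm_num
  -- `η / w`
  have a1 : η / w ≤ 1 / cm * s ^ (ε / 2) := by
    rw [div_le_iff₀ hw0]
    have b1 : η ≤ s ^ (ε / 2) * s ^ 2 := by
      rw [hη, hs2, ← Real.rpow_add hs]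
      apply hle
      linarith
    calc η ≤ s ^ (ε / 2) * s ^ 2 := b1
      _ = 1 / cm * s ^ (ε / 2) * (cm * s ^ 2) := by field_simp
      _ ≤ 1 / cm * s ^ (ε / 2) * w := by gcongr
  -- `η w / ρ²`
  have a2 : η * w / ρ ^ 2 ≤ Cw * s ^ (ε / 2) := by
    rw [div_le_iff₀ (by positivity)]
    have b1 : s ^ (2 * (d : ℝ) - ε) * s ^ 2 = s ^ (ε / 2) * ρ ^ 2 := by
      rw [hρ, hs2, ← Real.rpow_natCast (s ^ ((d : ℝ) + 1 - 3 * ε / 4)), ← Real.rpow_mul hs.le,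
        ← Real.rpow_add hs, ← Real.rpow_add hs]
      congr 1
      push_cast
      ring
    calc η * w ≤ η * (Cw * s ^ 2) := by gcongr
      _ = Cw * (s ^ (2 * (d : ℝ) - ε) * s ^ 2) := by
          rw [hη]
          ring
      _ = Cw * s ^ (ε / 2) * ρ ^ 2 := by
          rw [b1]
          ring
  -- `ρ^d N`
  have a3 : ρ ^ d * N ≤ 1 := by
    have b1 : ρ ^ d = s ^ ((d : ℝ) * (d + 1 - 3 * ε / 4)) := by
      rw [hρ, xpow hs]
    calc ρ ^ d * N ≤ ρ ^ d * s ^ (-((d : ℝ) * (d + 1 - ε))) := by gcongr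
      _ = s ^ ((d : ℝ) * ε / 4) := by
          rw [b1, ← Real.rpow_add hs]
          congr 1
          ring
      _ ≤ 1 := Real.rpow_le_one hs.le hs1 (by positivity)
  have hqd : q ^ d ≤ 2 ^ d * ρ ^ d := by
    rw [← mul_pow]
    gcongr
  have hqd2 : q ^ (d - 2) ≤ 2 ^ d * ρ ^ d / ρ ^ 2 := by
    rw [le_div_iff₀ (by positivity)]
    calc q ^ (d - 2) * ρ ^ 2 ≤ q ^ (d - 2) * q ^ 2 := by gcongr
      _ = q ^ d := by
          rw [← pow_add]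
          congr 1
          omega
      _ ≤ 2 ^ d * ρ ^ d := hqd
  have hsε : 0 < s ^ (ε / 2) := by positivity
  have b1 : η * (1 / w + w / q ^ 2) ≤ (1 / cm + Cw) * s ^ (ε / 2) := by
    have c1 : w / q ^ 2 ≤ w / ρ ^ 2 := by gcongr
    calc η * (1 / w + w / q ^ 2) ≤ η * (1 / w + w / ρ ^ 2) := by gcongr
      _ = η / w + η * w / ρ ^ 2 := by ring
      _ ≤ 1 / cm * s ^ (ε / 2) + Cw * s ^ (ε / 2) := add_le_add a1 a2
      _ = _ := by ring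
  have b2 : η * ((q ^ d / w + w * q ^ (d - 2)) * N) ≤ (1 / cm + Cw) * 2 ^ d * s ^ (ε / 2) := by
    calc η * ((q ^ d / w + w * q ^ (d - 2)) * N)
        ≤ η * ((2 ^ d * ρ ^ d / w + w * (2 ^ d * ρ ^ d / ρ ^ 2)) * N) := by gcongr
      _ = (η / w + η * w / ρ ^ 2) * 2 ^ d * (ρ ^ d * N) := by
          field_simp
      _ ≤ (1 / cm * s ^ (ε / 2) + Cw * s ^ (ε / 2)) * 2 ^ d * 1 := by gcongr
      _ = _ := by ring
  rw [le_div_iff₀ hη0]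
  calc CS * cs * ((1 / w + w / q ^ 2) * N + (q ^ d / w + w * q ^ (d - 2)) * N ^ 2) * η
      = CS * cs * (η * (1 / w + w / q ^ 2) +
          η * ((q ^ d / w + w * q ^ (d - 2)) * N)) * N := by ring
    _ ≤ CS * cs * ((1 / cm + Cw) * s ^ (ε / 2) + (1 / cm + Cw) * 2 ^ d * s ^ (ε / 2)) * N := by
        gcongr
    _ = K * s ^ (ε / 2) * N := by
        rw [hK]
        ring
    _ ≤ s ^ θ * N := by gcongr

end Pool.Agent.LE.QF.H68
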