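import Pool.Agent.Helper68_LQF.INIa

/-!
# The parameters: the conditions on `s = |σ|`
-/

set_option autoImplicit false

open Filter

open scoped BigOperators Topology

noncomputable section

namespace Pool.Agent.LE.QF.H68

/-- the constants -/
structure Cst where
  d : ℕ
  k₀ : ℕ
  ε : ℝ
  a : ℝ
  c₀ : ℝ
  cm : ℝ
  Cm : ℝ
  CI : ℝ
  CK : ℝ
  CB : ℝ
  CF : ℝ
  CS : ℝ
  cG : ℝ
  CG : ℝ
  cs : ℝ

namespace Cst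

variable (K : Cst)

def θ : ℝ := K.ε / (24 * K.d)

def Cw : ℝ := 1 + K.Cm

def Kl : ℝ := 2 + Real.log (1 / K.cm)

/-- the radius of the low momenta -/
def r (s : ℝ) : ℝ := s ^ (2 - K.ε / (2 * K.d))

/-- the conditions on the constants -/
structure Ok : Prop where
  hd : 3 ≤ K.d
  hε : 0 < K.ε ∧ K.ε ≤ 1
  ha : 0 < K.a
  hc₀ : 0 < K.c₀
  hcm : 0 < K.cm ∧ K.cm ≤ 1
  hCm : 1 ≤ K.Cm
  hCI : 1 ≤ K.CI
  hCK : 1 ≤ K.CK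
  hCB : 1 ≤ K.CB
  hCF : 1 ≤ K.CF
  hCS : 1 ≤ K.CS
  hcG : 0 < K.cG
  hCG : 1 ≤ K.CG
  hcs : 1 ≤ K.cs
  hk₀ : (K.d : ℝ) * (4 * K.d + 6) < 6 * K.k₀ * K.θ

/-- the conditions on `s` -/
structure Cnd (s : ℝ) : Prop where
  q0 : 0 < s ∧ s ≤ 1 / 4
  q1 : s ^ 2 ≤ K.cm ∧ K.Cw * s ^ 2 ≤ 1 / 2 ∧ K.Cw * s ^ 2 ≤ K.cG
  q3 : K.CK / K.cm ^ 2 * s ≤ 1 ∧ K.CB / K.cm ^ 2 * s ≤ 1 ∧ K.CF / K.cm ^ 2 * s ≤ 1 ∧
    K.CG / K.cm * s ≤ 1 ∧ K.Cm * s ≤ 1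
  q4 : 4 * K.Cm * s ^ 2 * (1 + Real.log (1 / s)) ≤ s ^ (2 - K.ε) ∧
    4 * K.Cm * s ^ 2 * (1 + Real.log (1 / s)) ≤ K.a
  q5 : (s ^ K.θ) ^ 3 ≤ K.c₀ ∧ s ^ K.θ ≤ 1 / 8
  q7 : s ^ (-((K.d : ℝ) * (4 * K.d + 6))) * (s ^ K.θ) ^ (6 * K.k₀) ≤ 1 / 4
  q11 : K.CB * K.Kl / K.cm * (1 + Real.log (1 / s)) *
    (Real.sqrt K.Cw * (s ^ K.θ) ^ 6 + 2 * K.Cw * s ^ K.ε) ≤ (s ^ K.θ) ^ 3 / 2
  q12 : K.CK * K.Kl * (1 + Real.log (1 / s)) * (Real.sqrt K.Cw * (s ^ K.θ) ^ 6) ≤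
    K.cm * ((s ^ K.θ) ^ 3 / 8)
  q13 : 16 * K.r s ≤ 1
  q15 : 8 * K.d * K.r s ≤ s ^ (2 - K.ε)
  q16 : K.CF * K.Cw * (4 * K.d + 6) ^ 6 * s ^ (2 / 3 : ℝ) * (1 + Real.log (1 / s)) ^ 6 ≤
    (s ^ K.θ) ^ 40
  q17 : K.CI * K.cs * 2 ^ K.d * (4 + K.Cw ^ 2) * s ^ (K.ε / 2) ≤ (s ^ K.θ) ^ 20
  q20 : 2 * s ≤ (s ^ K.θ) ^ 4
  q22 : K.CS * K.cs * ((1 / K.cm + K.Cw) * (1 + 2 ^ K.d)) * s ^ (K.ε / 2) ≤ s ^ K.θ

variable {K}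

theorem Ok.dpos (h : K.Ok) : (3 : ℝ) ≤ K.d := by exact_mod_cast h.hd

theorem Ok.θpos (h : K.Ok) : 0 < K.θ := by
  have := h.dpos
  have := h.hε.1
  unfold θ
  positivity

theorem Ok.θd (h : K.Ok) : 24 * K.d * K.θ = K.ε := by
  have := h.dpos
  unfold θ
  field_simp

theorem Ok.θ72 (h : K.Ok) : 72 * K.θ ≤ K.ε := by
  have h1 := h.dpos
  have h2 := h.θd
  have h3 := h.θpos
  nlinarith

theorem Ok.Cwpos (h : K.Ok) : 2 ≤ K.Cw := by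
  have := h.hCm
  unfold Cw
  linarith

theorem Ok.Klpos (h : K.Ok) : 2 ≤ K.Kl := by
  have h1 : 0 ≤ Real.log (1 / K.cm) :=
    Real.log_nonneg (by rw [le_div_iff₀ h.hcm.1]; linarith [h.hcm.2])
  unfold Kl
  linarith

theorem Ok.rexp (h : K.Ok) : 2 - K.ε / (2 * K.d) = 2 - 12 * K.θ := by
  have h1 := h.dpos
  unfold θ
  field_simp
  ring

theorem Ok.ev (h : K.Ok) : ∀ᶠ s in 𝓝[>] (0 : ℝ), K.Cnd s := by
  have hd := h.dpos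
  have hθ := h.θpos
  have hθ72 := h.θ72
  have hε := h.hε.1
  have hε1 := h.hε.2
  have hcm := h.hcm.1
  have e0 : ∀ᶠ s in 𝓝[>] (0 : ℝ), 0 < s := self_mem_nhdsWithin
  have e1 : ∀ᶠ s in 𝓝[>] (0 : ℝ), s ≤ 1 / 4 := by
    filter_upwards [evc0 1 1 (1 / 4) (by norm_num) (by norm_num)] with s hs
    simpa using hs
  have p1 := evc0 1 2 K.cm (by norm_num) hcm
  have p2 := evc0 K.Cw 2 (1 / 2) (by norm_num) (by norm_num)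
  have p3 := evc0 K.Cw 2 K.cG (by norm_num) h.hcG
  have p4 := evc0 (K.CK / K.cm ^ 2) 1 1 (by norm_num) one_pos
  have p5 := evc0 (K.CB / K.cm ^ 2) 1 1 (by norm_num) one_pos
  have p6 := evc0 (K.CF / K.cm ^ 2) 1 1 (by norm_num) one_pos
  have p7 := evc0 (K.CG / K.cm) 1 1 (by norm_num) one_pos
  have p8 := evc0 K.Cm 1 1 (by norm_num) one_pos
  have p9 := evt (4 * K.Cm) 2 (2 - K.ε) 1 (by linarith)
  have p10 := evc (4 * K.Cm) 2 K.a 1 (by norm_num) h.ha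
  have p11 := evc0 1 (3 * K.θ) K.c₀ (by positivity) h.hc₀
  have p12 := evc0 1 K.θ (1 / 8) hθ (by norm_num)
  have p13 := evc0 1 (6 * K.k₀ * K.θ - (K.d : ℝ) * (4 * K.d + 6)) (1 / 4)
    (by linarith [h.hk₀]) (by norm_num)
  have p14 := evt (4 * (K.CB * K.Kl / K.cm * Real.sqrt K.Cw)) (6 * K.θ) (3 * K.θ) 1 (by linarith)
  have p15 := evt (4 * (K.CB * K.Kl / K.cm * (2 * K.Cw))) K.ε (3 * K.θ) 1 (by linarith)
  have p16 := evt (8 / K.cm * (K.CK * K.Kl * Real.sqrt K.Cw)) (6 * K.θ) (3 * K.θ) 1 (by linarith)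
  have p17 := evc0 16 (2 - K.ε / (2 * K.d)) 1 (by rw [h.rexp]; linarith) one_pos
  have p18 := evt0 (8 * K.d) (2 - K.ε / (2 * K.d)) (2 - K.ε) (by rw [h.rexp]; linarith)
  have p19 := evt (K.CF * K.Cw * (4 * K.d + 6) ^ 6) (2 / 3) (40 * K.θ) 6 (by linarith)
  have p20 := evt0 (K.CI * K.cs * 2 ^ K.d * (4 + K.Cw ^ 2)) (K.ε / 2) (20 * K.θ) (by linarith)
  have p21 := evt0 2 1 (4 * K.θ) (by linarith)
  have p22 := evt0 (K.CS * K.cs * ((1 / K.cm + K.Cw) * (1 + 2 ^ K.d))) (K.ε / 2) K.θ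
    (by linarith)
  filter_upwards [e0, e1, p1, p2, p3, p4, p5, p6, p7, p8, p9, p10, p11, p12, p13, p14, p15, p16,
    p17, p18, p19, p20, p21, p22] with s e0 e1 p1 p2 p3 p4 p5 p6 p7 p8 p9 p10 p11 p12 p13 p14 p15
    p16 p17 p18 p19 p20 p21 p22
  have x3 : (s ^ K.θ) ^ 3 = s ^ (3 * K.θ) := by
    rw [xpow e0]
    norm_num
  have x4 : (s ^ K.θ) ^ 4 = s ^ (4 * K.θ) := by
    rw [xpow e0]
    norm_num
  have x6 : (s ^ K.θ) ^ 6 = s ^ (6 * K.θ) := by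
    rw [xpow e0]
    norm_num
  have x20 : (s ^ K.θ) ^ 20 = s ^ (20 * K.θ) := by
    rw [xpow e0]
    norm_num
  have x40 : (s ^ K.θ) ^ 40 = s ^ (40 * K.θ) := by
    rw [xpow e0]
    norm_num
  have s2 : s ^ (2 : ℝ) = s ^ 2 := by
    rw [← Real.rpow_natCast]
    norm_num
  have s1 : s ^ (1 : ℝ) = s := Real.rpow_one s
  rw [s2] at p1 p2 p3 p9 p10
  rw [s1] at p4 p5 p6 p7 p8 p21
  rw [one_mul] at p1 p11 p12 p13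
  rw [pow_one] at p9 p10 p14 p15 p16
  refine ⟨⟨e0, e1⟩, ⟨p1, p2, p3⟩, ⟨p4, p5, p6, p7, p8⟩, ⟨p9, p10⟩, ⟨?_, p12⟩, ?_, ?_, ?_, p17,
    p18, ?_, ?_, ?_, p22⟩
  · rw [x3]
    exact p11
  · rw [xpow e0, ← Real.rpow_add e0]
    have : -((K.d : ℝ) * (4 * K.d + 6)) + ((6 * K.k₀ : ℕ) : ℝ) * K.θ =
        6 * K.k₀ * K.θ - (K.d : ℝ) * (4 * K.d + 6) := by
      push_cast
      ring
    rw [this]
    exact p13
  · rw [x3, x6]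
    have e : K.CB * K.Kl / K.cm * (1 + Real.log (1 / s)) *
        (Real.sqrt K.Cw * s ^ (6 * K.θ) + 2 * K.Cw * s ^ K.ε) =
        (4 * (K.CB * K.Kl / K.cm * Real.sqrt K.Cw) * s ^ (6 * K.θ) * (1 + Real.log (1 / s)) +
          4 * (K.CB * K.Kl / K.cm * (2 * K.Cw)) * s ^ K.ε * (1 + Real.log (1 / s))) / 4 := by
      ring
    rw [e]
    linarith
  · rw [x3, x6]
    have e : K.CK * K.Kl * (1 + Real.log (1 / s)) * (Real.sqrt K.Cw * s ^ (6 * K.θ)) =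
        K.cm / 8 * (8 / K.cm * (K.CK * K.Kl * Real.sqrt K.Cw) * s ^ (6 * K.θ) *
          (1 + Real.log (1 / s))) := by
      field_simp
    rw [e]
    calc K.cm / 8 * (8 / K.cm * (K.CK * K.Kl * Real.sqrt K.Cw) * s ^ (6 * K.θ) *
          (1 + Real.log (1 / s))) ≤ K.cm / 8 * s ^ (3 * K.θ) := by gcongr
      _ = K.cm * (s ^ (3 * K.θ) / 8) := by ring
  · rw [x40]
    exact p19
  · rw [x20]
    exact p20
  · rw [x4]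
    exact p21

/-- the constant -/
theorem Ok.exists_c (h : K.Ok) : ∃ c : ℝ, 0 < c ∧ c ≤ 1 / 4 ∧ ∀ s : ℝ, 0 < s → s ≤ c → K.Cnd s := by
  obtain ⟨u, hu, hu2⟩ := (mem_nhdsGT_iff_exists_Ioc_subset (a := (0 : ℝ))).1 h.ev
  have hu0 : (0 : ℝ) < u := hu
  refine ⟨min u (1 / 4), by positivity, min_le_right _ _, fun s hs hs2 => ?_⟩
  exact hu2 ⟨hs, hs2.trans (min_le_left _ _)⟩

end Cst

end Pool.Agent.LE.QF.H68
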