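import Pool.Agent.LE.StmtsQH
import Pool.Agent.Helper68_LQF.INIb

/-!
# The parameters: the pieces of `Adm`
-/

set_option autoImplicit false

open MeasureTheory ProbabilityTheory Function Filter

open scoped ENNReal BigOperators Topology NNReal ComplexOrder Matrix

noncomputable section

namespace Pool.Agent.LE.QF.H68

open Pool.Agent.Anderson hiding box mem_box card_box
open Pool.Agent.Loc Pool.Agent.Mob Pool.Agent.Helper54.Bal
  Pool.Agent.Helper96.EXP Pool.Agent.BED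
open Pool.Agent.LE.MN Pool.Agent.LE.CL Pool.Agent.LE.IR Pool.Agent.LE.QD

theorem n2_smul {X : Type} [Fintype X] (c : ℂ) (v : X → ℂ) : n2 (c • v) = ‖c‖ ^ 2 * n2 v := by
  unfold n2
  rw [Finset.mul_sum]
  refine Finset.sum_congr rfl fun x _ => ?_
  rw [Pi.smul_apply, smul_eq_mul, norm_mul, mul_pow]

theorem n2_nonneg {X : Type} [Fintype X] (v : X → ℂ) : 0 ≤ n2 v :=
  Finset.sum_nonneg fun _ _ => by positivity

theorem hY_of {X : Type} [Fintype X] (B : Matrix X X ℂ) (τ β e : ℝ) (hτ : 0 ≤ τ) (hβ : 0 ≤ β)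
    (h : τ * β ≤ e) (u : X → ℂ) (hB : n2 (B *ᵥ u) ≤ β ^ 2 * n2 u) :
    n2 (((τ : ℂ) • B) *ᵥ u) ≤ e ^ 2 * n2 u := by
  rw [Matrix.smul_mulVec, n2_smul, Complex.norm_real, Real.norm_of_nonneg hτ]
  calc τ ^ 2 * n2 (B *ᵥ u) ≤ τ ^ 2 * (β ^ 2 * n2 u) := by gcongr
    _ = (τ * β) ^ 2 * n2 u := by ring
    _ ≤ e ^ 2 * n2 u := by
        have := n2_nonneg u
        have : 0 ≤ τ * β := by positivity
        gcongr

theorem nr_card {X : Type} [Fintype X] (g : X → ℂ) {δ L : ℝ} (hδ : 0 < δ) (s : Finset X)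
    (hs : ∀ b ∈ s, δ < ‖g b‖) (hL : ∑ b, ‖g b‖ ^ 4 ≤ L) : (s.card : ℝ) ≤ (δ ^ 4)⁻¹ * L := by
  have h1 : (s.card : ℝ) * δ ^ 4 ≤ L := by
    calc (s.card : ℝ) * δ ^ 4 = ∑ b ∈ s, δ ^ 4 := by rw [Finset.sum_const, nsmul_eq_mul]
      _ ≤ ∑ b ∈ s, ‖g b‖ ^ 4 := Finset.sum_le_sum fun b hb => by
          have := (hs b hb).le
          gcongr
      _ ≤ ∑ b, ‖g b‖ ^ 4 := Finset.sum_le_sum_of_subset_of_nonneg (Finset.subset_univ _)
          fun _ _ _ => by positivity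
      _ ≤ L := hL
  have h2 : 0 < δ ^ 4 := by positivity
  rw [inv_mul_eq_div, le_div_iff₀ h2]
  exact h1

theorem qf_add_smul {X : Type} [Fintype X] [DecidableEq X] (S : Matrix X X ℝ) (e τ : ℝ)
    (f : X → ℝ) : qf (e • (1 : Matrix X X ℝ) + τ • S) f = e * ∑ a, f a ^ 2 + τ * qf S f := by
  unfold qf
  rw [Matrix.add_mulVec, Matrix.smul_mulVec, Matrix.smul_mulVec, Matrix.one_mulVec,
    Finset.mul_sum, Finset.mul_sum, ← Finset.sum_add_distrib]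
  refine Finset.sum_congr rfl fun x _ => ?_
  simp only [Pi.add_apply, Pi.smul_apply, smul_eq_mul]
  ring

variable {d M : ℕ} [NeZero M]

/-- the sine of a momentum outside of `low` -/
theorem sin_low {J : ℕ} {p : Tor d M} (hp : p ∉ low d M J) :
    ∃ i, 2 * (J : ℝ) / M ≤ |Real.sin (Real.pi * ((p i).valMinAbs : ℝ) / M)| := by
  have h1 : ∃ i, J < (p i).valMinAbs.natAbs := by
    by_contra hc
    push Not at hc
    exact hp (by simp [low, hc])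
  obtain ⟨i, hi⟩ := h1
  refine ⟨i, ?_⟩
  have hM : 0 < M := Nat.pos_of_ne_zero (NeZero.ne M)
  have hMr : (0 : ℝ) < M := by exact_mod_cast hM
  have h2 : (p i).valMinAbs.natAbs ≤ M / 2 := ZMod.natAbs_valMinAbs_le _
  have h2r : ((p i).valMinAbs.natAbs : ℝ) ≤ (M : ℝ) / 2 := by
    have h3 : 2 * (p i).valMinAbs.natAbs ≤ M := by omega
    have h4 : (2 : ℝ) * ((p i).valMinAbs.natAbs : ℝ) ≤ M := by exact_mod_cast h3
    linarith
  have hab : |((p i).valMinAbs : ℝ)| = ((p i).valMinAbs.natAbs : ℝ) := by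
    rw [Nat.cast_natAbs, Int.cast_abs]
  set n : ℝ := ((p i).valMinAbs.natAbs : ℝ) with hn
  have hn0 : 0 ≤ n := Nat.cast_nonneg _
  have h3 : |Real.sin (Real.pi * ((p i).valMinAbs : ℝ) / M)| = Real.sin (Real.pi * n / M) := by
    have e1 : 0 ≤ Real.sin (Real.pi * n / M) := by
      apply Real.sin_nonneg_of_nonneg_of_le_pi
      · positivity
      · rw [div_le_iff₀ hMr]
        have := Real.pi_pos
        nlinarith
    rcases le_total 0 ((p i).valMinAbs : ℝ) with h | h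
    · rw [abs_of_nonneg h] at hab
      rw [hab, abs_of_nonneg e1]
    · rw [abs_of_nonpos h] at hab
      have e2 : ((p i).valMinAbs : ℝ) = -n := by linarith
      rw [e2, mul_neg, neg_div, Real.sin_neg, abs_neg, abs_of_nonneg e1]
  rw [h3]
  have h4 : 2 / Real.pi * (Real.pi * n / M) ≤ Real.sin (Real.pi * n / M) := by
    apply Real.mul_le_sin
    · positivity
    · rw [div_le_iff₀ hMr]
      have := Real.pi_pos
      nlinarith
  have h5 : 2 / Real.pi * (Real.pi * n / M) = 2 * n / M := by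
    have := Real.pi_pos
    field_simp
  rw [h5] at h4
  refine le_trans ?_ h4
  have : (J : ℝ) ≤ n := by
    rw [hn]
    exact_mod_cast hi.le
  gcongr

theorem abs_low {J : ℕ} {p : Tor d M} (hp : p ∈ low d M J) (i : Fin d) :
    |((p i).valMinAbs : ℝ)| ≤ J := by
  have h1 : (p i).valMinAbs.natAbs ≤ J := by
    have : ∀ i, (p i).valMinAbs.natAbs ≤ J := by simpa [low] using hp
    exact this i
  have hab : |((p i).valMinAbs : ℝ)| = ((p i).valMinAbs.natAbs : ℝ) := by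
    rw [Nat.cast_natAbs, Int.cast_abs]
  rw [hab]
  exact_mod_cast h1

/-- the square root for the momenta with a large sine -/
theorem sqrt_bound {w Cw s r t x : ℝ} (hw : 0 < w) (hw2 : w ≤ Cw * s ^ 2) (hr : 0 < r)
    (hrs : s ^ 2 = r * (x ^ 6) ^ 2) (hx : 0 ≤ x) (ht : r ≤ t) (hCw : 0 ≤ Cw) :
    Real.sqrt (w / t) ≤ Real.sqrt Cw * x ^ 6 := by
  have h1 : w / t ≤ Cw * (x ^ 6) ^ 2 := by
    rw [div_le_iff₀ (by linarith)]
    calc w ≤ Cw * s ^ 2 := hw2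
      _ = Cw * (x ^ 6) ^ 2 * r := by
          rw [hrs]
          ring
      _ ≤ Cw * (x ^ 6) ^ 2 * t := by gcongr
  calc Real.sqrt (w / t) ≤ Real.sqrt (Cw * (x ^ 6) ^ 2) := Real.sqrt_le_sqrt h1
    _ = Real.sqrt Cw * x ^ 6 := by
        rw [Real.sqrt_mul hCw, Real.sqrt_sq (by positivity)]

/-- the conditions on `M` -/
theorem M_cond {s cm w C : ℝ} {Mr : ℝ} (n : ℕ) (hs : 0 < s) (hs1 : s ≤ 1) (hcm : 0 < cm)
    (hw : cm * s ^ 2 ≤ w) (hC : 0 < C) (h : C / cm ^ 2 * s ≤ 1)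
    (hn : 3 ≤ n) (hM : s ^ (-(4 * (n : ℝ) + 4)) ≤ Mr) : C / w ^ 2 ≤ Mr := by
  have h0 : 0 < cm * s ^ 2 := by positivity
  have hn3 : (3 : ℝ) ≤ n := by exact_mod_cast hn
  calc C / w ^ 2 ≤ C / (cm * s ^ 2) ^ 2 := by gcongr
    _ = C / cm ^ 2 * s * (s ^ 5)⁻¹ := by field_simp
    _ ≤ 1 * (s ^ 5)⁻¹ := by gcongr
    _ = s ^ (-(5 : ℝ)) := by
        rw [one_mul, Real.rpow_neg hs.le]
        congr 1
        rw [← Real.rpow_natCast]
        norm_num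
    _ ≤ s ^ (-(4 * (n : ℝ) + 4)) :=
        Real.rpow_le_rpow_of_exponent_ge hs hs1 (by linarith)
    _ ≤ Mr := hM

theorem M_cond1 {s cm w C : ℝ} {Mr : ℝ} (n : ℕ) (hs : 0 < s) (hs1 : s ≤ 1) (hcm : 0 < cm)
    (hw : cm * s ^ 2 ≤ w) (hC : 0 < C) (h : C / cm * s ≤ 1)
    (hn : 3 ≤ n) (hM : s ^ (-(4 * (n : ℝ) + 4)) ≤ Mr) : C / w ≤ Mr := by
  have h0 : 0 < cm * s ^ 2 := by positivity
  have hn3 : (3 : ℝ) ≤ n := by exact_mod_cast hn
  calc C / w ≤ C / (cm * s ^ 2) := by gcongr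
    _ = C / cm * s * (s ^ 3)⁻¹ := by field_simp
    _ ≤ 1 * (s ^ 3)⁻¹ := by gcongr
    _ = s ^ (-(3 : ℝ)) := by
        rw [one_mul, Real.rpow_neg hs.le]
        congr 1
        rw [← Real.rpow_natCast]
        norm_num
    _ ≤ s ^ (-(4 * (n : ℝ) + 4)) :=
        Real.rpow_le_rpow_of_exponent_ge hs hs1 (by linarith)
    _ ≤ Mr := hM

/-- `M` is large -/
theorem M_large {s α : ℝ} {Mr : ℝ} (n : ℕ) (hs : 0 < s) (hs1 : s ≤ 1)
    (hM : s ^ (-(4 * (n : ℝ) + 4)) ≤ Mr) (hα : α ≤ 4 * (n : ℝ) + 4) : 1 ≤ Mr * s ^ α := by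
  calc (1 : ℝ) = s ^ (0 : ℝ) := (Real.rpow_zero s).symm
    _ ≤ s ^ (-(4 * (n : ℝ) + 4) + α) :=
        Real.rpow_le_rpow_of_exponent_ge hs hs1 (by linarith)
    _ = s ^ (-(4 * (n : ℝ) + 4)) * s ^ α := Real.rpow_add hs _ _
    _ ≤ Mr * s ^ α := by gcongr

/-- the density of the low momenta -/
theorem pi_bound {s ε η w CI cs Cw r q : ℝ} {d : ℕ} (hd : 3 ≤ d) (hs : 0 < s) (hs1 : s ≤ 1)
    (hε : 0 < ε) (hCI : 0 ≤ CI) (hcs : 0 ≤ cs) (hCw : 0 ≤ Cw) (hw0 : 0 ≤ w)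
    (hw : w ≤ Cw * s ^ 2) (hη : η = s ^ (2 * (d : ℝ) - ε))
    (hr : r = s ^ (2 - ε / (2 * d))) (hq0 : 0 ≤ q) (hq : q ≤ 2 * r) :
    CI * cs * (q ^ d + w ^ 2 * q ^ (d - 2)) / η ≤
      CI * cs * 2 ^ d * (4 + Cw ^ 2) * s ^ (ε / 2) := by
  have hd3 : (3 : ℝ) ≤ d := by exact_mod_cast hd
  have hη0 : 0 < η := by
    rw [hη]
    positivity
  have hr0 : 0 < r := by
    rw [hr]
    positivity
  have hs2 : s ^ 2 ≤ r := by
    rw [hr, ← Real.rpow_natCast]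
    apply Real.rpow_le_rpow_of_exponent_ge hs hs1
    push_cast
    have : 0 ≤ ε / (2 * d) := by positivity
    linarith
  have hrd : r ^ d = s ^ (ε / 2) * η := by
    rw [hr, xpow hs, hη, ← Real.rpow_add hs]
    congr 1
    field_simp
    ring
  have hw2 : w ≤ Cw * r := hw.trans (by gcongr)
  have h2d : (2 * r) ^ d = 2 ^ d * r ^ d := mul_pow _ _ _
  have h2d2 : (2 * r) ^ (d - 2) * r ^ 2 ≤ 2 ^ d * r ^ d := by
    calc (2 * r) ^ (d - 2) * r ^ 2 ≤ (2 * r) ^ (d - 2) * (2 * r) ^ 2 := by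
          have : r ≤ 2 * r := by linarith
          gcongr
      _ = (2 * r) ^ d := by
          rw [← pow_add]
          congr 1
          omega
      _ = 2 ^ d * r ^ d := h2d
  rw [div_le_iff₀ hη0]
  have h3 : q ^ d + w ^ 2 * q ^ (d - 2) ≤ 2 ^ d * (4 + Cw ^ 2) * r ^ d := by
    have a1 : q ^ d ≤ 2 ^ d * r ^ d := by
      rw [← h2d]
      gcongr
    have a2 : w ^ 2 * q ^ (d - 2) ≤ Cw ^ 2 * (2 ^ d * r ^ d) := by
      calc w ^ 2 * q ^ (d - 2) ≤ (Cw * r) ^ 2 * (2 * r) ^ (d - 2) := by gcongr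
        _ = Cw ^ 2 * ((2 * r) ^ (d - 2) * r ^ 2) := by ring
        _ ≤ Cw ^ 2 * (2 ^ d * r ^ d) := by gcongr
    have a3 : 0 ≤ 2 ^ d * r ^ d := by positivity
    have a4 : 2 ^ d * (4 + Cw ^ 2) * r ^ d = 4 * (2 ^ d * r ^ d) + Cw ^ 2 * (2 ^ d * r ^ d) := by
      ring
    linarith
  calc CI * cs * (q ^ d + w ^ 2 * q ^ (d - 2)) ≤ CI * cs * (2 ^ d * (4 + Cw ^ 2) * r ^ d) := by
        gcongr
    _ = CI * cs * 2 ^ d * (4 + Cw ^ 2) * s ^ (ε / 2) * η := by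
        rw [hrd]
        ring

/-- the near points: `N w` is small -/
theorem Nw_bound {s w CF Cw A x l lM : ℝ} (hs : 0 < s) (hx : 0 < x)
    (hw0 : 0 < w) (hw : w ≤ Cw * s ^ 2) (hCw : 1 ≤ Cw) (hCF : 0 ≤ CF) (hlM0 : 0 ≤ lM)
    (hlM : lM ≤ A * l) (h16 : CF * Cw * A ^ 6 * s ^ (2 / 3 : ℝ) * l ^ 6 ≤ x ^ 40) :
    ((x ^ 5) ^ 4)⁻¹ * (CF * w ^ (-(2 / 3 : ℝ)) * lM ^ 6) * w ≤ x ^ 20 := by
  have h1 : w ^ (-(2 / 3 : ℝ)) * w = w ^ (1 / 3 : ℝ) := by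
    nth_rewrite 2 [← Real.rpow_one w]
    rw [← Real.rpow_add hw0]
    norm_num
  have h2 : w ^ (1 / 3 : ℝ) ≤ Cw * s ^ (2 / 3 : ℝ) := by
    calc w ^ (1 / 3 : ℝ) ≤ (Cw * s ^ 2) ^ (1 / 3 : ℝ) := by gcongr
      _ = Cw ^ (1 / 3 : ℝ) * (s ^ 2) ^ (1 / 3 : ℝ) :=
          Real.mul_rpow (by linarith) (by positivity)
      _ ≤ Cw * s ^ (2 / 3 : ℝ) := by
          have a1 : Cw ^ (1 / 3 : ℝ) ≤ Cw := by
            calc Cw ^ (1 / 3 : ℝ) ≤ Cw ^ (1 : ℝ) :=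
                  Real.rpow_le_rpow_of_exponent_le hCw (by norm_num)
              _ = Cw := Real.rpow_one _
          have a2 : (s ^ 2) ^ (1 / 3 : ℝ) = s ^ (2 / 3 : ℝ) := by
            rw [← Real.rpow_natCast, ← Real.rpow_mul hs.le]
            norm_num
          rw [a2]
          gcongr
  have hx20 : 0 < x ^ 20 := by positivity
  have h3 : ((x ^ 5) ^ 4)⁻¹ = (x ^ 20)⁻¹ := by
    rw [← pow_mul]
  calc ((x ^ 5) ^ 4)⁻¹ * (CF * w ^ (-(2 / 3 : ℝ)) * lM ^ 6) * w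
      = (x ^ 20)⁻¹ * (CF * (w ^ (-(2 / 3 : ℝ)) * w) * lM ^ 6) := by
        rw [h3]
        ring
    _ ≤ (x ^ 20)⁻¹ * (CF * (Cw * s ^ (2 / 3 : ℝ)) * (A * l) ^ 6) := by
        rw [h1]
        gcongr
    _ = (x ^ 20)⁻¹ * (CF * Cw * A ^ 6 * s ^ (2 / 3 : ℝ) * l ^ 6) := by ring
    _ ≤ (x ^ 20)⁻¹ * x ^ 40 := by gcongr
    _ = x ^ 20 := by field_simp

end Pool.Agent.LE.QF.H68
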