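import Pool.Agent.Helper68_LQF.INId

/-!
# The parameters: `Adm` and the errors
-/

set_option autoImplicit false

open MeasureTheory ProbabilityTheory Function Filter

open scoped ENNReal BigOperators Topology NNReal ComplexOrder Matrix

noncomputable section

namespace Pool.Agent.LE.QF.H68

open Pool.Agent.Anderson hiding box mem_box card_box
open Pool.Agent.Loc Pool.Agent.Mob Pool.Agent.Helper54.Bal
  Pool.Agent.Helper96.EXP Pool.Agent.BED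
open Pool.Agent.LE.MN Pool.Agent.LE.CL Pool.Agent.LE.IR Pool.Agent.LE.QD

section Mk

variable (K : Cst) (M : ℕ) [NeZero M] (s E η : ℝ) (m : ℂ)

theorem mk_w : (mkD K s E η m M).w = wv s η m := by
  simp [Dat.w, Dat.kp, mkD, wv]

theorem mk_zt : (mkD K s E η m M).zt 0 = ⟨E, η⟩ + ((s ^ 2 : ℝ) : ℂ) * m := by
  simp [Dat.zt, mkD]

theorem mk_ta : (mkD K s E η m M).ta 0 = wv s η m / m.im := by
  simp [Dat.ta, Dat.kp, mkD, wv]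

theorem mk_G0 : (mkD K s E η m M).G0 = rs 0 (⟨E, η⟩ + ((s ^ 2 : ℝ) : ℂ) * m) := by
  unfold Dat.G0
  rw [mk_zt]

theorem mk_G : (mkD K s E η m M).G 0 = rs 0 (⟨E, η⟩ + ((s ^ 2 : ℝ) : ℂ) * m) := by
  unfold Dat.G
  rw [Prod.snd_zero, Prod.fst_zero, mk_zt]

end Mk

variable {K : Cst} {M : ℕ} [NeZero M] {s E η : ℝ} {m : ℂ}

namespace Giv

theorem mpos (g : Giv K M s E η m) (hK : K.Ok) : 0 < m.im := lt_of_lt_of_le hK.hcm.1 g.hm1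

theorem m_diag (g : Giv K M s E η m) (hK : K.Ok) (ral : RalStmt) (a : Tor K.d M) :
    rs (0 : Tor K.d M → ℝ) (⟨E, η⟩ + ((s ^ 2 : ℝ) : ℂ) * m) a a = m := by
  have h : 0 < (⟨E, η⟩ + ((s ^ 2 : ℝ) : ℂ) * m : ℂ).im := by
    rw [g.imz]
    exact g.wpos hK
  rw [rs_diag ral _ h, ← rs_diag ral _ h (0 : Tor K.d M)]
  exact g.hm

theorem hk (g : Giv K M s E η m) : (M : ℝ) ^ K.d * ((s ^ K.θ) ^ 3) ^ (2 * K.k₀) ≤ 1 / 4 := by
  have hs := g.hs.q0.1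
  have hx := g.xpos
  have h1 : (M : ℝ) ^ K.d ≤ s ^ (-((K.d : ℝ) * (4 * K.d + 6))) := by
    calc (M : ℝ) ^ K.d ≤ (s ^ (-(4 * (K.d : ℝ) + 6))) ^ K.d := by
          have := g.hM2
          gcongr
      _ = s ^ (-((K.d : ℝ) * (4 * K.d + 6))) := by
          rw [xpow hs]
          congr 1
          ring
  have h2 : ((s ^ K.θ) ^ 3) ^ (2 * K.k₀) = (s ^ K.θ) ^ (6 * K.k₀) := by
    rw [← pow_mul]
    congr 1
    ring
  rw [h2]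
  refine le_trans ?_ g.hs.q7
  gcongr

theorem xi (g : Giv K M s E η m) (n : ℕ) : 1 ≤ ((s ^ K.θ) ^ n)⁻¹ := by
  have hx := g.xpos
  have hx1 := g.x1
  rw [one_le_inv₀ (by positivity)]
  exact pow_le_one₀ hx.le hx1

theorem Npos (g : Giv K M s E η m) (hK : K.Ok) :
    1 ≤ K.CF * (wv s η m) ^ (-(2 / 3 : ℝ)) * (1 + Real.log M) ^ 6 := by
  have h1 := hK.hCF
  have h2 : 1 ≤ (wv s η m) ^ (-(2 / 3 : ℝ)) := by
    apply Real.one_le_rpow_of_pos_of_le_one_of_nonpos (g.wpos hK)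
    · linarith [g.w_half hK]
    · norm_num
  have h3 : 1 ≤ (1 + Real.log M) ^ 6 := by
    apply one_le_pow₀
    have := Real.log_nonneg g.M1
    linarith
  calc (1 : ℝ) = 1 * 1 * 1 := by norm_num
    _ ≤ _ := by gcongr

theorem jlow (g : Giv K M s E η m) : 2 ≤ ⌈(s ^ K.θ)⁻¹⌉₊ ∧ 2 ≤ ⌈((s ^ K.θ) ^ 4)⁻¹⌉₊ := by
  have hx := g.xpos
  have hx8 := g.hs.q5.2
  have h1 : 8 ≤ (s ^ K.θ)⁻¹ := by
    rw [le_inv_comm₀ (by norm_num) hx]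
    linarith
  have h2 : 8 ≤ ((s ^ K.θ) ^ 4)⁻¹ := by
    refine h1.trans ?_
    apply inv_anti₀ (by positivity)
    calc (s ^ K.θ) ^ 4 ≤ (s ^ K.θ) ^ 1 := pow_le_pow_of_le_one hx.le g.x1 (by norm_num)
      _ = s ^ K.θ := pow_one _
  constructor
  · have := h1.trans (Nat.le_ceil (s ^ K.θ)⁻¹)
    have h3 : (8 : ℕ) ≤ ⌈(s ^ K.θ)⁻¹⌉₊ := by exact_mod_cast this
    omega
  · have := h2.trans (Nat.le_ceil ((s ^ K.θ) ^ 4)⁻¹)
    have h3 : (8 : ℕ) ≤ ⌈((s ^ K.θ) ^ 4)⁻¹⌉₊ := by exact_mod_cast this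
    omega

theorem hYm (g : Giv K M s E η m) (hK : K.Ok) (F : Fac K) (kft : KftStmt)
    (u : Tor K.d M → ℂ) : n2 ((mkD K s E η m M).Y 0 *ᵥ u) ≤ ((s ^ K.θ) ^ 3 / 2) ^ 2 * n2 u := by
  have hw := g.wpos hK
  have hx := g.xpos
  have hs := g.hs.q0.1
  have hm := g.mpos hK
  obtain ⟨-, -, k3, -, -, -⟩ := kft K.d M (⟨E, η⟩ + ((s ^ 2 : ℝ) : ℂ) * m)
    (by rw [g.imz]; exact hw)
  have h11 : 0 ≤ K.Kl := by linarith [hK.Klpos]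
  have h12 : 0 ≤ 1 + Real.log (1 / s) := by linarith [g.l1]
  have h13 : 0 ≤ K.CB := by linarith [hK.hCB]
  have h14 : 0 < K.Cw := by linarith [hK.Cwpos]
  have h15 : 0 < K.cm := hK.hcm.1
  set β : ℝ := K.CB * (K.Kl * (1 + Real.log (1 / s))) *
      (Real.sqrt K.Cw * (s ^ K.θ) ^ 6 + 2 * K.Cw * s ^ K.ε) / wv s η m with hβ
  have hβ0 : 0 ≤ β := by positivity
  have h1 := k3 β u fun p => g.bh_le hK F p
  unfold Dat.Y
  rw [Prod.fst_zero, mk_ta, mk_G]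
  refine hY_of _ (wv s η m / m.im) β _ (by positivity) hβ0 ?_ u h1
  calc wv s η m / m.im * β ≤ wv s η m / K.cm * β := by
        have := g.hm1
        gcongr
    _ = K.CB * K.Kl / K.cm * (1 + Real.log (1 / s)) *
        (Real.sqrt K.Cw * (s ^ K.θ) ^ 6 + 2 * K.Cw * s ^ K.ε) := by
        rw [hβ]
        field_simp
    _ ≤ (s ^ K.θ) ^ 3 / 2 := g.hs.q11

theorem hWm (g : Giv K M s E η m) (hK : K.Ok) (F : Fac K) (kft : KftStmt) (inw : InwStmt)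
    (hcs : 2 * K.Cm ≤ K.cG * K.cs) (f : Tor K.d M → ℝ) :
    (1 + (s ^ K.θ) ^ 3 / 2) * qf ((mkD K s E η m M).A 0)⁻¹ f ≤
      qf ((mkD K s E η m M).X 0 + P0 (Tor K.d M)) f := by
  have hw := g.wpos hK
  have hx := g.xpos
  have hx1 := g.x1
  have hm := g.mpos hK
  have hz : 0 < (⟨E, η⟩ + ((s ^ 2 : ℝ) : ℂ) * m : ℂ).im := by
    rw [g.imz]
    exact hw
  obtain ⟨hJ1, hJ2, hJ3⟩ := g.Jb hK
  have hcs1 := hK.hcs
  have hx3 : 0 < (s ^ K.θ) ^ 3 := by positivity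
  have hx31 : (s ^ K.θ) ^ 3 ≤ 1 := pow_le_one₀ hx.le hx1
  have h := inw K.d M (⟨E, η⟩ + ((s ^ 2 : ℝ) : ℂ) * m) (Jv K s M) K.cs (1 + (s ^ K.θ) ^ 3)
    (1 + (s ^ K.θ) ^ 3 / 2) ((s ^ K.θ) ^ 3 / 8) K.cG (wv s η m / m.im) hz (by positivity)
    (by
      rw [g.kf0 hK kft]
      field_simp)
    hK.hcG (by linarith) (by positivity) (by nlinarith) (by positivity) (by linarith)
    (by positivity)
    (by
      rw [g.imz, mul_div_assoc', le_div_iff₀ hm]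
      have h2 := g.hm2
      calc 2 * wv s η m * m.im ≤ 2 * wv s η m * K.Cm := by gcongr
        _ = 2 * K.Cm * wv s η m := by ring
        _ ≤ K.cG * K.cs * wv s η m := by gcongr)
    (fun p hp => g.kf_high hK F kft hp hJ2)
    (fun p hp => F.gal M _ p (g.re_le hK) hz
      (by rw [g.imz]; exact (g.w2 hK).trans g.hs.q1.2.2) (by rw [g.imz]; exact g.MG hK)
      (fun i => by
        have a1 := abs_low hp i
        have a2 := g.Mpos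
        rw [div_le_iff₀ a2] at hJ3
        have a3 := g.hs.q13
        nlinarith)) f
  rw [g.imz] at h
  unfold Dat.A Dat.X
  rw [mk_ta, Prod.fst_zero, mk_ta, mk_G]
  exact h

theorem hϖm (g : Giv K M s E η m) (hK : K.Ok) (F : Fac K) (f : Tor K.d M → ℝ) :
    (s ^ K.θ) ^ 5 / ((2 + 2 * K.cs / K.cm) * (M : ℝ) ^ 2) * qf ((mkD K s E η m M).A 0) f ≤
      (s ^ K.θ) ^ 5 * ∑ a, f a ^ 2 := by
  have hw := g.wpos hK
  have hx := g.xpos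
  have hx1 := g.x1
  have hm := g.mpos hK
  have hcm := hK.hcm.1
  have hcs : 0 < K.cs := by linarith [hK.hcs]
  have hM := g.Mpos
  have hM1 := g.M1
  obtain ⟨hJ1, hJ2, hJ3⟩ := g.Jb hK
  obtain ⟨-, -, k3⟩ := F.inm M (Jv K s M) K.cs (wv s η m) _ _ hJ1 hK.hcs hw
    (by linarith [g.w_half hK]) rfl rfl
  have hf0 : 0 ≤ ∑ a, f a ^ 2 := Finset.sum_nonneg fun _ _ => by positivity
  have hx31 : (s ^ K.θ) ^ 3 ≤ 1 := pow_le_one₀ hx.le hx1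
  have hM2 : 1 ≤ (M : ℝ) ^ 2 := one_le_pow₀ hM1
  have h1 : qf ((mkD K s E η m M).A 0) f ≤
      (2 + 2 * K.cs / K.cm) * (M : ℝ) ^ 2 * ∑ a, f a ^ 2 := by
    unfold Dat.A
    rw [mk_ta, qf_add_smul]
    have a1 : wv s η m / m.im * qf (mkD K s E η m M).S f ≤
        2 * K.cs / K.cm * (M : ℝ) ^ 2 * ∑ a, f a ^ 2 := by
      calc wv s η m / m.im * qf (mkD K s E η m M).S f
          ≤ wv s η m / m.im * (2 * K.cs / wv s η m * (M : ℝ) ^ 2 * ∑ a, f a ^ 2) := by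
            have := k3 f
            gcongr
            exact this
        _ = 2 * K.cs / m.im * (M : ℝ) ^ 2 * ∑ a, f a ^ 2 := by
            field_simp
        _ ≤ 2 * K.cs / K.cm * (M : ℝ) ^ 2 * ∑ a, f a ^ 2 := by
            have := g.hm1
            gcongr
    have a2 : (mkD K s E η m M).e₀ * ∑ a, f a ^ 2 ≤ 2 * (M : ℝ) ^ 2 * ∑ a, f a ^ 2 := by
      have : (mkD K s E η m M).e₀ ≤ 2 * (M : ℝ) ^ 2 := by
        show 1 + (s ^ K.θ) ^ 3 ≤ 2 * (M : ℝ) ^ 2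
        linarith
      gcongr
    linarith
  calc (s ^ K.θ) ^ 5 / ((2 + 2 * K.cs / K.cm) * (M : ℝ) ^ 2) * qf ((mkD K s E η m M).A 0) f
      ≤ (s ^ K.θ) ^ 5 / ((2 + 2 * K.cs / K.cm) * (M : ℝ) ^ 2) *
        ((2 + 2 * K.cs / K.cm) * (M : ℝ) ^ 2 * ∑ a, f a ^ 2) := by gcongr
    _ = (s ^ K.θ) ^ 5 * ∑ a, f a ^ 2 := by
        field_simp

/-- the number of the near points -/
theorem hNm (g : Giv K M s E η m)
    (hfrb : ∀ x : Tor K.d M,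
      (∀ y, ‖rs (0 : Tor K.d M → ℝ) (⟨E, η⟩ + ((s ^ 2 : ℝ) : ℂ) * m) x y‖ ≤ K.CF) ∧
      ∑ y, ‖rs (0 : Tor K.d M → ℝ) (⟨E, η⟩ + ((s ^ 2 : ℝ) : ℂ) * m) x y‖ ^ 4 ≤
        K.CF * (wv s η m) ^ (-(2 / 3 : ℝ)) * (1 + Real.log M) ^ 6) (a : Tor K.d M) :
    (((mkD K s E η m M).nr a).card : ℝ) ≤ (mkD K s E η m M).N := by
  have hx := g.xpos
  have h := (hfrb a).2
  have hδ : 0 < (mkD K s E η m M).δ := by
    show 0 < (s ^ K.θ) ^ 5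
    positivity
  have hN : (mkD K s E η m M).N = ((mkD K s E η m M).δ ^ 4)⁻¹ *
    (K.CF * (wv s η m) ^ (-(2 / 3 : ℝ)) * (1 + Real.log M) ^ 6) := rfl
  rw [hN]
  refine nr_card (fun b => (mkD K s E η m M).G0 a b) hδ _ ?_ ?_
  · intro b hb
    unfold Dat.nr at hb
    rw [Finset.mem_filter] at hb
    exact hb.2
  · rw [mk_G0]
    exact h

/-- the initial value of `La` -/
theorem hLm (g : Giv K M s E η m) (hK : K.Ok)
    (hfrb : ∀ x : Tor K.d M,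
      (∀ y, ‖rs (0 : Tor K.d M → ℝ) (⟨E, η⟩ + ((s ^ 2 : ℝ) : ℂ) * m) x y‖ ≤ K.CF) ∧
      ∑ y, ‖rs (0 : Tor K.d M → ℝ) (⟨E, η⟩ + ((s ^ 2 : ℝ) : ℂ) * m) x y‖ ^ 4 ≤
        K.CF * (wv s η m) ^ (-(2 / 3 : ℝ)) * (1 + Real.log M) ^ 6) (a : Tor K.d M) :
    4 * (mkD K s E η m M).La 0 a ≤ (mkD K s E η m M).Ls 0 := by
  have hw := g.wpos hK
  have hx := g.xpos
  have hx1 := g.x1
  have hcs0 : 0 < K.cs := by linarith [hK.hcs]
  have hCI0 : 0 < K.CI := by linarith [hK.hCI]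
  have hM := g.Mpos
  have h1 : (mkD K s E η m M).La 0 a =
      ∑ b, ‖rs (0 : Tor K.d M → ℝ) (⟨E, η⟩ + ((s ^ 2 : ℝ) : ℂ) * m) a b‖ ^ 4 := by
    unfold Dat.La KK
    rw [mk_G]
    refine Finset.sum_congr rfl fun b _ => ?_
    ring
  have h2 : (mkD K s E η m M).La 0 a ≤
      K.CF * (wv s η m) ^ (-(2 / 3 : ℝ)) * (1 + Real.log M) ^ 6 := by
    rw [h1]
    exact (hfrb a).2
  have hLL := g.Npos hK
  have hls : (mkD K s E η m M).Ls 0 = ((s ^ K.θ) ^ 6)⁻¹ * ((((s ^ K.θ) ^ 5) ^ 4)⁻¹ *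
      (K.CF * (wv s η m) ^ (-(2 / 3 : ℝ)) * (1 + Real.log M) ^ 6) +
        (K.CI * K.cs * (((Jv K s M : ℝ) / M) ^ K.d +
          (wv s η m) ^ 2 * ((Jv K s M : ℝ) / M) ^ (K.d - 2))) / (wv s η m) ^ 2 +
        ((s ^ K.θ) ^ 5) ^ 4 / wv s η m) := by
    have a0 : (mkD K s E η m M).kp 0 = wv s η m := mk_w K M s E η m
    unfold Dat.Ls
    rw [a0]
    rfl
  rw [hls]
  generalize K.CF * (wv s η m) ^ (-(2 / 3 : ℝ)) * (1 + Real.log M) ^ 6 = LL1 at h2 hLL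
  have hN : 1 ≤ (((s ^ K.θ) ^ 5) ^ 4)⁻¹ := by
    rw [← pow_mul]
    exact g.xi 20
  have hNN : LL1 ≤ (((s ^ K.θ) ^ 5) ^ 4)⁻¹ * LL1 := le_mul_of_one_le_left (by linarith) hN
  have h3 : 4 ≤ ((s ^ K.θ) ^ 6)⁻¹ := by
    rw [le_inv_comm₀ (by norm_num) (by positivity)]
    have h8 := g.hs.q5.2
    calc (s ^ K.θ) ^ 6 ≤ (s ^ K.θ) ^ 1 := pow_le_pow_of_le_one hx.le hx1 (by norm_num)
      _ = s ^ K.θ := pow_one _
      _ ≤ 4⁻¹ := by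
          norm_num at h8 ⊢
          linarith
  have a3 : 0 ≤ (K.CI * K.cs * (((Jv K s M : ℝ) / M) ^ K.d +
          (wv s η m) ^ 2 * ((Jv K s M : ℝ) / M) ^ (K.d - 2))) / (wv s η m) ^ 2 := by positivity
  have a4 : 0 ≤ ((s ^ K.θ) ^ 5) ^ 4 / wv s η m := by positivity
  have h5 : 4 * LL1 ≤ ((s ^ K.θ) ^ 6)⁻¹ * ((((s ^ K.θ) ^ 5) ^ 4)⁻¹ * LL1) := by
    have : 0 ≤ LL1 := by linarith
    gcongr
  have h6 : ((s ^ K.θ) ^ 6)⁻¹ * ((((s ^ K.θ) ^ 5) ^ 4)⁻¹ * LL1) ≤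
      ((s ^ K.θ) ^ 6)⁻¹ * ((((s ^ K.θ) ^ 5) ^ 4)⁻¹ * LL1 +
        (K.CI * K.cs * (((Jv K s M : ℝ) / M) ^ K.d +
          (wv s η m) ^ 2 * ((Jv K s M : ℝ) / M) ^ (K.d - 2))) / (wv s η m) ^ 2 +
        ((s ^ K.θ) ^ 5) ^ 4 / wv s η m) := by
    apply mul_le_mul_of_nonneg_left _ (by positivity)
    linarith
  linarith

/-- the hypotheses -/
theorem adm (g : Giv K M s E η m) (hK : K.Ok) (F : Fac K) (kft : KftStmt) (inw : InwStmt)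
    (ral : RalStmt) (hcs : 2 * K.Cm ≤ K.cG * K.cs) :
    Adm (mkD K s E η m M) K.cm (max K.Cm K.CF) K.c₀ K.k₀ := by
  have hs := g.hs.q0.1
  have hw := g.wpos hK
  have hx := g.xpos
  have hx1 := g.x1
  have hm := g.mpos hK
  have hcm := hK.hcm.1
  have hcs0 : 0 < K.cs := by linarith [hK.hcs]
  have hCI0 : 0 < K.CI := by linarith [hK.hCI]
  have hM := g.Mpos
  have hM1 := g.M1
  obtain ⟨hJ1, hJ2, hJ3⟩ := g.Jb hK
  have hx3 : 0 < (s ^ K.θ) ^ 3 := by positivity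
  have hx31 : (s ^ K.θ) ^ 3 ≤ 1 := pow_le_one₀ hx.le hx1
  have hzi : 0 < (⟨E, η⟩ + ((s ^ 2 : ℝ) : ℂ) * m : ℂ).im := by
    rw [g.imz]
    exact hw
  have hfrb := F.frb M (⟨E, η⟩ + ((s ^ 2 : ℝ) : ℂ) * m) hzi
    (by rw [g.imz]; linarith [g.w_half hK]) (by rw [g.imz]; exact g.MF hK)
  rw [g.imz] at hfrb
  obtain ⟨k1, k2, k3⟩ := F.inm M (Jv K s M) K.cs (wv s η m) _ _ hJ1 hK.hcs hw
    (by linarith [g.w_half hK]) rfl rfl
  set LL1 : ℝ := K.CF * (wv s η m) ^ (-(2 / 3 : ℝ)) * (1 + Real.log M) ^ 6 with hLL1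
  have hLL : 1 ≤ LL1 := g.Npos hK
  have hN : 1 ≤ (((s ^ K.θ) ^ 5) ^ 4)⁻¹ := by
    rw [← pow_mul]
    exact g.xi 20
  have hNN : LL1 ≤ (((s ^ K.θ) ^ 5) ^ 4)⁻¹ * LL1 := le_mul_of_one_le_left (by linarith) hN
  refine
    { hT := ⟨by show 0 < s ^ 2; positivity, g.ηpos, ?_, g.ηT hK⟩
      hm := ⟨g.hm1, g.hm2.trans (le_max_left _ _)⟩
      hfix := ?_
      hδ := ⟨by show 0 < (s ^ K.θ) ^ 5; positivity, ?_, g.hs.q5.1⟩
      hk := g.hk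
      he := ⟨?_, ?_, ?_⟩
      hj := ⟨g.jlow.1, g.jlow.2, g.xi 6, ?_, ?_⟩
      h0 := ?_
      hN := ?_
      hY := g.hYm hK F kft
      hL := ?_
      hS := ⟨k1.1, k1.2.1, k1.2.2.1, ?_⟩
      hP := ⟨k2.1, k2.2.1, ?_, k2.2.2.2.1, k2.2.2.2.2⟩
      hϖ := ⟨?_, ?_, g.hϖm hK F⟩
      hW := g.hWm hK F kft inw hcs }
  · rw [mk_w]
    linarith [g.w_half hK]
  · intro a
    rw [mk_G0]
    exact g.m_diag hK ral a
  · show (s ^ K.θ) ^ 5 ≤ (s ^ K.θ) ^ 3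
    exact pow_le_pow_of_le_one hx.le hx1 (by norm_num)
  · show 1 < 1 + (s ^ K.θ) ^ 3 / 2
    linarith
  · show 1 + (s ^ K.θ) ^ 3 / 2 ≤ 1 + (s ^ K.θ) ^ 3
    linarith
  · show 1 + (s ^ K.θ) ^ 3 ≤ 2
    linarith
  · show 1 ≤ (((s ^ K.θ) ^ 5) ^ 4)⁻¹ * LL1
    linarith
  · show 0 ≤ K.CI * K.cs * (((Jv K s M : ℝ) / M) ^ K.d +
      (wv s η m) ^ 2 * ((Jv K s M : ℝ) / M) ^ (K.d - 2))
    positivity
  · intro a b
    rw [mk_G0]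
    exact ((hfrb a).1 b).trans (le_max_right _ _)
  · exact g.hNm hfrb
  · exact g.hLm hK hfrb
  · intro a
    rw [mk_w]
    exact k1.2.2.2 a
  · intro a
    refine (k2.2.2.1 a).trans ?_
    show K.CI * ((Jv K s M : ℝ) / M) ^ K.d ≤ K.CI * K.cs * (((Jv K s M : ℝ) / M) ^ K.d +
      (wv s η m) ^ 2 * ((Jv K s M : ℝ) / M) ^ (K.d - 2))
    have a1 : 0 ≤ (wv s η m) ^ 2 * ((Jv K s M : ℝ) / M) ^ (K.d - 2) := by positivity
    have a2 : 0 ≤ ((Jv K s M : ℝ) / M) ^ K.d := by positivity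
    have a3 := hK.hcs
    calc K.CI * ((Jv K s M : ℝ) / M) ^ K.d = K.CI * 1 * (((Jv K s M : ℝ) / M) ^ K.d + 0) := by
          ring
      _ ≤ _ := by gcongr
  · show 0 < (s ^ K.θ) ^ 5 / ((2 + 2 * K.cs / K.cm) * (M : ℝ) ^ 2)
    positivity
  · show (s ^ K.θ) ^ 5 / ((2 + 2 * K.cs / K.cm) * (M : ℝ) ^ 2) ≤ (s ^ K.θ) ^ 5
    apply div_le_self (by positivity)
    have a1 : 1 ≤ (M : ℝ) ^ 2 := one_le_pow₀ hM1
    have a2 : 0 ≤ 2 * K.cs / K.cm := by positivity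
    nlinarith

/-- the errors -/
theorem aNm (g : Giv K M s E η m) (hK : K.Ok) : (mkD K s E η m M).aN ≤ 54 * s ^ K.θ := by
  have hs := g.hs.q0.1
  have hw := g.wpos hK
  have hx := g.xpos
  have hx1 := g.x1
  have hη := g.ηpos
  have hcs0 : 0 < K.cs := by linarith [hK.hcs]
  have hCI0 : 0 < K.CI := by linarith [hK.hCI]
  have hCw : 2 ≤ K.Cw := hK.Cwpos
  obtain ⟨hJ1, hJ2, hJ3⟩ := g.Jb hK
  have hM := g.Mpos
  have hceil : ∀ y : ℝ, 1 ≤ y → (⌈y⌉₊ : ℝ) ≤ 2 * y := fun y hy => by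
    have := Nat.ceil_lt_add_one (by linarith : 0 ≤ y)
    linarith
  have hN0 : 0 ≤ (((s ^ K.θ) ^ 5) ^ 4)⁻¹ *
      (K.CF * (wv s η m) ^ (-(2 / 3 : ℝ)) * (1 + Real.log M) ^ 6) * wv s η m := by
    have := g.Npos hK
    positivity
  have hN : (((s ^ K.θ) ^ 5) ^ 4)⁻¹ *
      (K.CF * (wv s η m) ^ (-(2 / 3 : ℝ)) * (1 + Real.log M) ^ 6) * wv s η m ≤
        (s ^ K.θ) ^ 20 := by
    refine Nw_bound (A := 4 * K.d + 6) (l := 1 + Real.log (1 / s)) hs hx hw (g.w2 hK)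
      (by linarith) (by linarith [hK.hCF]) ?_ ?_ g.hs.q16
    · have := Real.log_nonneg g.M1
      linarith
    · apply lM_bound hs g.s1 g.M1 _ g.hM2
      have := hK.dpos
      linarith
  have hpe : K.CI * K.cs * (((Jv K s M : ℝ) / M) ^ K.d +
      (wv s η m) ^ 2 * ((Jv K s M : ℝ) / M) ^ (K.d - 2)) / η ≤ (s ^ K.θ) ^ 20 :=
    (pi_bound hK.hd hs g.s1 hK.hε.1 hCI0.le hcs0.le (by linarith) hw.le (g.w2 hK) g.hη
      (r := K.r s) rfl (by positivity) hJ3).trans g.hs.q17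
  have h := aN_bound (j := (⌈(s ^ K.θ)⁻¹⌉₊ : ℝ)) (p := (⌈((s ^ K.θ) ^ 4)⁻¹⌉₊ : ℝ)) hx hx1 hN0 hN
    (by positivity) hpe (Nat.cast_nonneg _)
    (by
      have a1 := hceil (s ^ K.θ)⁻¹ (by simpa using g.xi 1)
      rw [div_eq_mul_inv]
      exact a1)
    (Nat.cast_nonneg _)
    (by
      have a1 := hceil ((s ^ K.θ) ^ 4)⁻¹ (g.xi 4)
      rw [div_eq_mul_inv]
      exact a1) rfl
  unfold Dat.aN Dat.ch
  rw [mk_w]
  exact h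

end Giv

end Pool.Agent.LE.QF.H68
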